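import Pool.Agent.H987.Z.D2

/-! Statements, part D (the stages) and part E (the free Green function). -/

set_option autoImplicit false

open scoped BigOperators InnerProductSpace Topology
open Filter MeasureTheory

namespace Pool.Agent.H987.Z

open Pool.Agent.Y662.TR (LL Cf Mw dv hu)
open Pool.Agent.TH369.AN (Rz)

/-- **D1 (bootstrap).** From `improve` (file `D2.lean`; the conclusion of `improve` may be used).

Proof. Take `M0, l0` from `improve`. Fix `E ∈ [α, β]` and `f(η) = ∫ hu (GB b a tr V (E + iη)) (g (E + iη))²`.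
`f` is continuous on `(0, 1]` (dominated convergence: for `z → z₀`, `GB` converges for every `V` since
`|GB(z) - GB(z')| ≤ |z - z'|/(Im z Im z')` (`S_green`), `g` is continuous by `Fr.mo`, and for `Im z ≥ η₀` the
integrand is bounded, see `bd_gr`, `Bd.int2`, `hu_bd` in `D1.lean`). `f(1) ≤ 1/100`, hence
`f(1) ≤ (1+ε) e + ε ≤ 1/200` by `improve`. If `f(η) > 1/200` for some `η`, then by the intermediate value
theorem on `[η, 1]` there is `η'` with `1/200 < f(η') ≤ 1/100`, which contradicts `improve`. So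
`f ≤ 1/200 ≤ 1/100` and `improve` gives the claim for both `τ`. -/
def S_boot : Prop :=
  ∀ (g : ℂ → ℂ) (α' β' c C ε κ : ℝ), Fr g α' β' c C → 0 < ε → ε ≤ 1 → 0 < κ → α' ≤ β' →
    ∃ M0 : ℕ, ∃ l0 : ℝ, 0 < l0 ∧ ∀ (α β : ℝ), α' + κ ≤ α → β + κ ≤ β' →
      ∀ (G : Type) [Group G] [Countable G] (n : ℕ), M0 ≤ n + 1 →
      ∀ b : G → ℝ, Sy b → ∀ a : ℝ, 0 < a → a ^ 2 * (n + 1) ≤ l0 →
      ∀ (ν : Measure ℝ) [IsProbabilityMeasure ν] (e : ℝ), 0 ≤ e → (1 + ε) * e + ε ≤ 1 / 200 →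
      PP b ν g α' β' (a ^ 2 * (n + 1) * (c / 2)) 2 e →
      (∀ z : ℂ, α ≤ z.re → z.re ≤ β → z.im = 1 →
        ∫ V, hu (GB b a tr V z) (g z) ^ 2 ∂(Measure.infinitePi fun _ : Vt G n => ν) ≤ 1 / 100) →
      ∀ z : ℂ, α ≤ z.re → z.re ≤ β → 0 < z.im → z.im ≤ 1 →
        ∀ τ : Vt G n → Fin (n + 1) → ℝ, (τ = tr ∨ τ = tf) →
          ∫ V, hu (GB b a τ V z) (g z) ^ 2 ∂(Measure.infinitePi fun _ : Vt G n => ν) ≤
            (1 + ε) * e + ε

/-- **D2 (comparison with the free operator at a fixed distance from the real axis).**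

Proof. If `|V x| ≤ δ ≤ 1` for all `x` (true almost surely), `‖Mw 1 V‖ ≤ δ` (the library has only
`Mw_norm : ‖Mw 1 V‖ ≤ 1`; repeat the proof), `‖HV (KT b) V - KT b0‖ ≤ N1 (b - b0) + δ` (`S_conv`), so
`|GS b V z - g z| ≤ (N1 (b - b0) + δ)/θ² ≤ 2δ/θ² =: q` (`S_green`), and for `q ≤ c/2`:
`Im GS ≥ c/2`, `hu ≤ q²/(c/2 · c)`. For the tree: `Gr (KA shp b0) z oo oo = g z`, e.g. from `S_root` with
`a = 0` and `V = 0` (`Mw 1 0 = 0`, `TB b0 0 τ = KA shp b0`): `φ` satisfies `KT b0 φ - z φ = dv 1`, so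
`φ = Rz (KT b0) z (dv 1)` by `rz_uniq`. `‖HV (TB b a τ) V - KA shp b0‖ ≤ N1 (b - b0) + 2|a|(n+1) + δ` by
`S_conv` and `‖JB τ j‖ ≤ 1`. -/
def S_close : Prop :=
  ∀ (g : ℂ → ℂ) (α β c C : ℝ), Fr g α β c C → ∀ θ η : ℝ, 0 < θ → 0 < η → ∃ δ : ℝ, 0 < δ ∧
    ∀ (G : Type) [Group G] [Countable G] (b0 b : G → ℝ), Sy b0 → Sy b →
      (∀ z : ℂ, 0 < z.im → Gr (KT b0) z 1 1 = g z) →
      ∀ (ν : Measure ℝ) [IsProbabilityMeasure ν], (∀ᵐ s ∂ν, |s| ≤ δ) →
      ∀ z : ℂ, α ≤ z.re → z.re ≤ β → θ ≤ z.im → z.im ≤ 2 →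
        (N1 (fun s => b s - b0 s) ≤ δ →
          ∫ V, hu (GS b V z) (g z) ^ 2 ∂(Measure.infinitePi fun _ : G => ν) ≤ η) ∧
        ∀ (n : ℕ) (a : ℝ), N1 (fun s => b s - b0 s) + 2 * |a| * (n + 1) ≤ δ →
          ∀ τ : Vt G n → Fin (n + 1) → ℝ, (τ = tr ∨ τ = tf) →
            ∫ V, hu (GB b a τ V z) (g z) ^ 2 ∂(Measure.infinitePi fun _ : Vt G n => ν) ≤ η

/-- **D3 (from the tree to the next stage).**

Proof. `K` from `S_hutri` for `ε`. For `θ ≤ Im z ≤ 1`, `α ≤ Re z ≤ β` all Green functions have imaginary part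
at least `κ₀ = θ/(h + 1 + R)²`, `R = |α| + |β| + 1` (`S_green`; `‖KT (bp b a s)‖ ≤ N1 b + |a| (n+1) ≤ h`,
`‖TB b a tf‖ ≤ h`). Choose `δ` with `K (δ²/κ₀²)² · 2 ≤ ε/2`... and `t` from `S_mom` for `θ, R, h, δ`. With `σ`
from `S_cover` and `V' = V ∘ σ`: `|GS (bp b a s) (V ∘ σ) z - GB b a tf V z| ≤ δ`, so
`hu(GS, g)² ≤ (1 + ε/2) hu(GB, g)² + K hu(GS, GB)² (1 + hu(GB, g)²)` with `hu(GS, GB) ≤ δ²/κ₀²` and
integrate. The map `V ↦ V ∘ σ` sends the product measure over `Vt G n` to the product measure over `G`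
because `σ` is injective (`Measure.eq_infinitePi`). `bp b a s` is symmetric because the `s j` are
involutions. -/
def S_rst : Prop :=
  ∀ (g : ℂ → ℂ) (α β c C : ℝ), Fr g α β c C → ∀ θ ε h : ℝ, 0 < θ → θ ≤ 1 → 0 < ε → ε ≤ 1 → 0 < h →
    ∃ t : ℕ, ∀ (G : Type) [Group G] [Countable G] (n : ℕ) (b : G → ℝ) (a : ℝ)
      (s : Fin (n + 1) → G) (E : Set G), Sy b → E.Finite → (∀ x, b x ≠ 0 → x ∈ E ∨ x = 1) →
      (∀ j, s j * s j = 1) → LFc E s t → N1 b + 2 * |a| * (n + 1) + 1 ≤ h →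
      Sy (bp b a s) ∧ N1 (fun x => bp b a s x - b x) ≤ |a| * (n + 1) ∧
      ∀ (ν : Measure ℝ) [IsProbabilityMeasure ν] (e : ℝ), 0 ≤ e → e ≤ 1 →
      (∀ z : ℂ, α ≤ z.re → z.re ≤ β → θ ≤ z.im → z.im ≤ 1 →
        ∫ V, hu (GB b a tf V z) (g z) ^ 2 ∂(Measure.infinitePi fun _ : Vt G n => ν) ≤ e) →
      ∀ z : ℂ, α ≤ z.re → z.re ≤ β → θ ≤ z.im → z.im ≤ 1 →
        ∫ V, hu (GS (bp b a s) V z) (g z) ^ 2 ∂(Measure.infinitePi fun _ : G => ν) ≤
          (1 + ε) * e + ε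

/-! ### The free Green function -/

/-- the weights of `-Δ` along the homomorphism `ι : ℤ^d → G` -/
noncomputable def b0 {d : ℕ} {G : Type} [Group G] (ι : Multiplicative (Fin d → ℤ) →* G) (x : G) : ℝ := by
  classical
  exact (2 * d) * (if x = 1 then 1 else 0) - ∑ i : Fin d,
    ((if x = ι (Multiplicative.ofAdd (Pi.single i 1)) then 1 else 0) +
      (if x = ι (Multiplicative.ofAdd (Pi.single i (-1))) then 1 else 0))

/-- the Green function of `-Δ` on `ℤ^d` at the origin -/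
noncomputable def gZ (d : ℕ) (z : ℂ) : ℂ :=
  Gr (KT (b0 (MonoidHom.id (Multiplicative (Fin d → ℤ))))) z 1 1

/-- **E0.** `b0 ι` is symmetric with norm at most `4 d`, and along an injective homomorphism the Green
function at the identity is that of the lattice.

Proof. `u = Rz (KT (b0 id)) z (dv 1)` on the lattice; `w(ι x) = u(x)`, `w = 0` outside of the range (the
adjoint of `Cf ι`) satisfies `KT (b0 ι) w - z w = dv 1` (the range is a subgroup: right translation by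
`ι (± e_i)` preserves it and its complement), so `w = Rz (KT (b0 ι)) z (dv 1)` by `rz_uniq`. -/
def S_free0 : Prop :=
  ∀ (d : ℕ) (G : Type) [Group G] (ι : Multiplicative (Fin d → ℤ) →* G), Function.Injective ι →
    Sy (b0 ι) ∧ N1 (b0 ι) ≤ 4 * d ∧ ∀ z : ℂ, 0 < z.im → Gr (KT (b0 ι)) z 1 1 = gZ d z

/-- **E1 (dimension one).** Proof. `-Δ - z` on `ℤ`: `u_n = A r^|n|`, `r + 1/r = 2 - z`, `|r| < 1`,
`A = 1/(1/r - r)`, so `g = gZ 1 z` satisfies `g² = 1/(z (z - 4))` (alternatively derive `g² z (z - 4) = 1` from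
the resolvent equation). Hence `|g|² = 1/(|z| |z - 4|) ≤ 1/κ²`, and with `z = E + iη`:
`z (z-4) = -(E(4-E) + η²) + 2iη(E - 2)`, so `Re g² ≤ -(κ(4-κ))/|z(z-4)|²`, and
`(Im g)² ≥ -Re g² ≥ κ (4-κ)/ 42²...`; the modulus of continuity: `|g - g'| |g + g'| = |g² - g'²|` and
`|g + g'| ≥ Im g + Im g' ≥ 2c`. -/
def S_free1 : Prop :=
  ∀ κ : ℝ, 0 < κ → κ ≤ 1 → ∃ c C : ℝ, Fr (gZ 1) κ (4 - κ) c C

/-- **E3 (dimension at least three).** The library file `Y662/TR/Fre.lean` has (for the function `gg d B z` of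
that development, the Green function at the origin of the lattice, written with the tree of sheets and hopping
zero) the bounds `gg_bd`, `gg_low`, `gg_hol`; one has to identify `gZ d z = gg d B z` (same resolvent
equation on `ℤ^d`, uniqueness `rz_uniq`, cf. `S_free0`, and `root_eq` in `Y662/TR/Res.lean`). Note that `gg_low`
gives the lower bound only for small `Im z`; for `Im z` between a positive constant and `2` use
`Im g ≥ Im z/(4d + |z|)²` (`S_green`). -/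
def S_free3 : Prop :=
  ∀ (d : ℕ), 3 ≤ d → ∀ κ : ℝ, 0 < κ → κ ≤ 1 → ∃ c C : ℝ, Fr (gZ d) κ (4 * d - κ) c C

/-- **E2 (dimension two, away from the band centre).** Proof. The spectral measure of the origin for the
two-dimensional operator is the convolution of two arcsine laws on `[0, 4]`, so
`g₂(z) = ∫_0^4 g₁(z - e) ρ(e) de`, `ρ(e) = 1/(π √(e (4 - e)))` (or: Fourier transform in one coordinate:
`g₂(z) = (1/2π) ∫_0^{2π} g₁(z - 2 + 2 cos k) dk`), with `g₁ = gZ 1`, `g₁(z)² = 1/(z (z - 4))`, `Im g₁ > 0`. For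
`E = Re z` at distance `≥ κ` from `{0, 4, 8}`: `|g₁(z - e)| ≤ |E - e|^{-1/2} |E - e - 4|^{-1/2}`, and the four
inverse square root singularities `e = 0, 4, E, E - 4` are at distance `≥ κ` from each other except pairs
that do not meet; so the integrals are bounded uniformly, with a uniform modulus of continuity
(e.g. `|g₁(w) - g₁(w')|` integrated), and `Im g₂ ≥ ∫_{e : κ/4 ≤ E - e ≤ 4 - κ/4} Im g₁ ρ de ≥ c`, the set of such `e` in
`[κ/4, 4 - κ/4]` being of length `≥ κ/4`. -/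
def S_free2 : Prop :=
  ∀ κ : ℝ, 0 < κ → κ ≤ 1 → (∃ c C : ℝ, Fr (gZ 2) κ (4 - κ) c C) ∧
    ∃ c C : ℝ, Fr (gZ 2) (4 + κ) (8 - κ) c C

end Pool.Agent.H987.Z
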