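import Pool.Agent.H987.Z.StE

/-! Statements, part G. -/

set_option autoImplicit false

open scoped BigOperators InnerProductSpace Topology
open Filter MeasureTheory

namespace Pool.Agent.H987.Z

open Pool.Agent.Y662.TR (LL Cf Mw dv hu)

/-- **F5.** The sums of the square roots of the matrix elements of an operator with the stated action
are bounded.

Proof. `K (dv y) (x, f) = ∑_i (2 δ_y(x,f) - δ_y(x + e_i, f) - δ_y(x - e_i, f)) +
∑' q, c q δ_y(x, f * φ x q)`. For fixed `(x, f)` and `y = (x', f')` the last sum is zero unless `x' = x`, and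
then it is `c ((φ x)⁻¹ (f⁻¹ f'))`. `√(|a| + |b|) ≤ √|a| + √|b|`, and `f' ↦ (φ x)⁻¹ (f⁻¹ f')` is a bijection
of `F`, so the sum over `y` is at most `∑_i (√2 + 1 + 1) + ∑' q, √(c q)`. -/
def S_hop : Prop :=
  ∀ (d : ℕ) (F : Type) [Group F] (φ : Multiplicative (Fin d → ℤ) →* MulAut F) (c : F → ℝ)
    (K : LL ((Fin d → ℤ) × F) →L[ℂ] LL ((Fin d → ℤ) × F)), (∀ q, 0 ≤ c q) →
    (Summable fun q => c q ^ (1 / 2 : ℝ)) →
    (∀ (u : LL ((Fin d → ℤ) × F)) (x : Fin d → ℤ) (f : F),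
      K u (x, f) = -∑ i : Fin d, ((u (x + Pi.single i 1, f) - u (x, f)) +
          (u (x - Pi.single i 1, f) - u (x, f))) +
        ∑' q : F, ((c q : ℝ) : ℂ) * u (x, f * φ (Multiplicative.ofAdd x) q)) →
    ∃ S : ℝ, 0 < S ∧ ∀ p, (Summable fun y => ‖K (dv y) p‖ ^ (1 / 2 : ℝ)) ∧
      ∑' y, ‖K (dv y) p‖ ^ (1 / 2 : ℝ) ≤ S

end Pool.Agent.H987.Z
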