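import Pool.Agent.H987.Z.It
import Pool.Agent.H987.Z.StF
import Pool.Graph.R_seed8.TH369.MU.SM

/-! The theorem on the layered lattice. -/

set_option autoImplicit false
set_option linter.unusedSectionVars false

open scoped BigOperators InnerProductSpace Topology
open Filter MeasureTheory

namespace Pool.Agent.H987.Z

open Pool.Agent.Y662.TR (LL Cf Mw dv hu lmk ll_inner ll_ext ll_summable dv_apply sub_coord
  smul_coord clp_eq Mw_apply add_coord)
open Pool.Agent.TH369.AN (Rz rz_eq rz_uniq)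
open Pool.Agent.TH369.MU (SpM spm_exists)

/-- the sites: position in the layer, and the layer -/
abbrev Site (d : ℕ) (F : Type) : Type := (Fin d → ℤ) × F

section defs

variable {d : ℕ} {F : Type} [Group F]

/-- the Hamiltonian -/
noncomputable def Ham (φ : Multiplicative (Fin d → ℤ) →* MulAut F) (c : F → ℝ) (lam : ℝ)
    (ω : Site d F → ℝ) (u : Site d F → ℂ) (p : Site d F) : ℂ :=
  -∑ i : Fin d, ((u (p.1 + Pi.single i 1, p.2) - u p) + (u (p.1 - Pi.single i 1, p.2) - u p)) +
    ∑' q : F, ((c q : ℝ) : ℂ) * u (p.1, p.2 * φ (Multiplicative.ofAdd p.1) q) +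
    ((lam * ω p : ℝ) : ℂ) * u p

end defs

section spec

variable {X : Type}

/-- square summable functions -/
def SqS (u : X → ℂ) : Prop := Summable fun x => ‖u x‖ ^ 2

/-- spectral measures -/
def IsSp (A : (X → ℂ) → X → ℂ) (f : X → ℂ) (m : Measure ℝ) : Prop :=
  IsFiniteMeasure m ∧ ∀ z : ℂ, z.im ≠ 0 → ∃ u : X → ℂ, SqS u ∧
    (∀ x, A u x - z * u x = f x) ∧ ∫ E : ℝ, ((E : ℂ) - z)⁻¹ ∂m = ∑' x, (starRingEnd ℂ) (f x) * u x

theorem sp_of (A : (X → ℂ) → X → ℂ) (T : LL X →L[ℂ] LL X) (hT : IsSelfAdjoint T)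
    (hA : ∀ (u : LL X) (x : X), A (fun y => u y) x = T u x) (f : X → ℂ) (hf : SqS f) (m : Measure ℝ)
    (hm : IsSp A f m) : SpM T (lmk f hf) m := by
  refine ⟨hm.1, fun z hz => ?_⟩
  obtain ⟨u, hu, h1, h2⟩ := hm.2 z hz
  have h3 : lmk u hu = Rz T z (lmk f hf) := by
    apply rz_uniq _ hT z hz
    apply ll_ext
    intro x
    rw [sub_coord, smul_coord, ← hA]
    exact h1 x
  rw [← h3, h2, ← (ll_inner (lmk f hf) (lmk u hu)).tsum_eq]
  rfl

theorem of_sp (A : (X → ℂ) → X → ℂ) (T : LL X →L[ℂ] LL X) (hT : IsSelfAdjoint T)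
    (hA : ∀ (u : LL X) (x : X), A (fun y => u y) x = T u x) (f : X → ℂ) (hf : SqS f) (m : Measure ℝ)
    (hm : SpM T (lmk f hf) m) : IsSp A f m := by
  refine ⟨hm.1, fun z hz => ?_⟩
  obtain ⟨u, hu⟩ : ∃ u, u = Rz T z (lmk f hf) := ⟨_, rfl⟩
  refine ⟨fun x => u x, ll_summable u, fun x => ?_, ?_⟩
  · rw [hA]
    have h1 := rz_eq T hT z hz (lmk f hf)
    rw [← hu] at h1
    have h2 : (T u - z • u : LL X) x = (lmk f hf) x := by
      rw [h1]
    rw [sub_coord, smul_coord] at h2
    exact h2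
  · rw [← hm.2 z hz, ← hu, ← (ll_inner (lmk f hf) u).tsum_eq]
    rfl

end spec

/-- the energies: an interval on which the free Green function is regular -/
theorem free_ok (hf1 : S_free1) (hf2 : S_free2) (hf3 : S_free3) (d : ℕ) (hd : 1 ≤ d) (α β : ℝ)
    (hα : 0 < α) (hβ : β < 4 * d) (h2 : d = 2 → β < 4 ∨ 4 < α) :
    ∃ α' β' c C : ℝ, α' < α ∧ β < β' ∧ Fr (gZ d) α' β' c C := by
  rcases Nat.lt_or_ge d 3 with h | h
  · interval_cases d
    · obtain ⟨κ, hκ⟩ : ∃ κ : ℝ, κ = min (min α (4 - β)) 1 / 2 := ⟨_, rfl⟩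
      have h4 : 0 < 4 - β := by
        norm_num at hβ
        linarith
      have k0 : 0 < κ := by rw [hκ]; positivity
      have k1 : κ < α := by
        rw [hκ]
        have := (min_le_left (min α (4 - β)) 1).trans (min_le_left α (4 - β))
        linarith
      have k2 : κ < 4 - β := by
        rw [hκ]
        have := (min_le_left (min α (4 - β)) 1).trans (min_le_right α (4 - β))
        linarith
      have k3 : κ ≤ 1 := by
        rw [hκ]
        have := min_le_right (min α (4 - β)) 1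
        linarith
      obtain ⟨c, C, hF⟩ := hf1 κ k0 k3
      exact ⟨κ, 4 - κ, c, C, k1, by linarith, hF⟩
    · rcases h2 rfl with h5 | h5
      · obtain ⟨κ, hκ⟩ : ∃ κ : ℝ, κ = min (min α (4 - β)) 1 / 2 := ⟨_, rfl⟩
        have h4 : 0 < 4 - β := by linarith
        have k0 : 0 < κ := by rw [hκ]; positivity
        have k1 : κ < α := by
          rw [hκ]
          have := (min_le_left (min α (4 - β)) 1).trans (min_le_left α (4 - β))
          linarith
        have k2 : κ < 4 - β := by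
          rw [hκ]
          have := (min_le_left (min α (4 - β)) 1).trans (min_le_right α (4 - β))
          linarith
        have k3 : κ ≤ 1 := by
          rw [hκ]
          have := min_le_right (min α (4 - β)) 1
          linarith
        obtain ⟨⟨c, C, hF⟩, -⟩ := hf2 κ k0 k3
        exact ⟨κ, 4 - κ, c, C, k1, by linarith, hF⟩
      · obtain ⟨κ, hκ⟩ : ∃ κ : ℝ, κ = min (min (α - 4) (8 - β)) 1 / 2 := ⟨_, rfl⟩
        have h4 : 0 < 8 - β := by
          norm_num at hβ
          linarith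
        have h6 : 0 < α - 4 := by linarith
        have k0 : 0 < κ := by rw [hκ]; positivity
        have k1 : κ < α - 4 := by
          rw [hκ]
          have := (min_le_left (min (α - 4) (8 - β)) 1).trans (min_le_left (α - 4) (8 - β))
          linarith
        have k2 : κ < 8 - β := by
          rw [hκ]
          have := (min_le_left (min (α - 4) (8 - β)) 1).trans (min_le_right (α - 4) (8 - β))
          linarith
        have k3 : κ ≤ 1 := by
          rw [hκ]
          have := min_le_right (min (α - 4) (8 - β)) 1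
          linarith
        obtain ⟨-, ⟨c, C, hF⟩⟩ := hf2 κ k0 k3
        exact ⟨4 + κ, 8 - κ, c, C, by linarith, by linarith, hF⟩
  · obtain ⟨κ, hκ⟩ : ∃ κ : ℝ, κ = min (min α (4 * d - β)) 1 / 2 := ⟨_, rfl⟩
    have h4 : 0 < 4 * (d : ℝ) - β := by linarith
    have k0 : 0 < κ := by rw [hκ]; positivity
    have k1 : κ < α := by
      rw [hκ]
      have := (min_le_left (min α (4 * (d : ℝ) - β)) 1).trans (min_le_left α (4 * (d : ℝ) - β))
      linarith
    have k2 : κ < 4 * d - β := by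
      rw [hκ]
      have := (min_le_left (min α (4 * (d : ℝ) - β)) 1).trans (min_le_right α (4 * (d : ℝ) - β))
      linarith
    have k3 : κ ≤ 1 := by
      rw [hκ]
      have := min_le_right (min α (4 * (d : ℝ) - β)) 1
      linarith
    obtain ⟨c, C, hF⟩ := hf3 d h κ k0 k3
    exact ⟨κ, 4 * d - κ, c, C, k1, by linarith, hF⟩

/-- the law of a rescaled potential -/
theorem scale_int {X : Type} [Countable X] (μ : Measure ℝ) [IsProbabilityMeasure μ] (lam : ℝ)
    (F : (X → ℝ) → ℝ) (hF : Measurable F) :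
    ∫ V, F V ∂(Measure.infinitePi fun _ : X => μ.map fun t => lam * t) =
      ∫ ω, F (fun x => lam * ω x) ∂(Measure.infinitePi fun _ : X => μ) := by
  have hm : Measurable fun t : ℝ => lam * t := by fun_prop
  have h1 := Measure.infinitePi_map_pi (μ := fun _ : X => μ) (f := fun (_ : X) (t : ℝ) => lam * t)
    (fun _ => hm)
  have h2 : Measurable fun (ω : X → ℝ) (x : X) => lam * ω x :=
    measurable_pi_iff.2 fun x => measurable_const.mul (measurable_pi_apply x)
  rw [← h1, integral_map h2.aemeasurable hF.aestronglyMeasurable]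

/-- **the theorem** -/
theorem main_layers (halg : S_alg) (hc : S_conv) (hg : S_green) (hboot : S_boot)
    (hclose : S_close) (hrst : S_rst) (hwt : S_wt) (hlim : S_lim) (hf0 : S_free0) (hf1 : S_free1)
    (hf2 : S_free2) (hf3 : S_free3) (hac : S_ac) (hlay : S_lay) (hloc : S_loc) (hhop : S_hop)
    (d : ℕ) (hd : 1 ≤ d) (α β : ℝ) (hα : 0 < α) (hαβ : α ≤ β) (hβ : β < 4 * d)
    (h2 : d = 2 → β < 4 ∨ 4 < α) (ε : ℝ) (hε : 0 < ε) :
    ∃ (F : Type) (_ : Group F) (_ : Countable F) (φ : Multiplicative (Fin d → ℤ) →* MulAut F)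
      (c : F → ℝ),
      (∀ S : Finset F, ((Subgroup.closure (S : Set F) : Subgroup F) : Set F).Finite) ∧
      (∀ q : F, (Set.range fun x => φ x q).Finite) ∧
      (∀ q, 0 ≤ c q) ∧ (∀ q, c q⁻¹ = c q) ∧ (∀ p : ℝ, 0 < p → Summable fun q => c q ^ p) ∧
      ∑' q, c q ≤ ε ∧
      (∃ lam0 : ℝ, 0 < lam0 ∧ ∀ (μ : Measure ℝ) [IsProbabilityMeasure μ], (∀ᵐ s ∂μ, |s| ≤ 1) →
        ∀ lam : ℝ, 0 < lam → lam ≤ lam0 →
        ∀ᵐ ω ∂(Measure.infinitePi fun _ : Site d F => μ),
          (∀ f : Site d F → ℂ, SqS f → ∃ m : Measure ℝ, IsSp (Ham φ c lam ω) f m) ∧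
          (∀ (f : Site d F → ℂ) (m : Measure ℝ), SqS f → IsSp (Ham φ c lam ω) f m →
            ∀ A : Set ℝ, A ⊆ Set.Icc α β → volume A = 0 → m A = 0) ∧
          (∀ (p : Site d F) (m : Measure ℝ), IsSp (Ham φ c lam ω) (fun x => dv p x) m →
            ∀ A : Set ℝ, A ⊆ Set.Icc α β → MeasurableSet A → m A = 0 → volume A = 0)) ∧
      (∀ D : ℝ, 0 < D → ∃ lam1 : ℝ, 0 < lam1 ∧
        ∀ (μ : Measure ℝ) [IsProbabilityMeasure μ], (∀ᵐ s ∂μ, |s| ≤ 1) →
        (∀ A : Set ℝ, MeasurableSet A → μ A ≤ ENNReal.ofReal D * volume A) →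
        ∀ lam : ℝ, lam1 ≤ lam →
        ∀ᵐ ω ∂(Measure.infinitePi fun _ : Site d F => μ),
          (∀ f : Site d F → ℂ, SqS f → ∃ m : Measure ℝ, IsSp (Ham φ c lam ω) f m) ∧
          (∀ (f : Site d F → ℂ) (m : Measure ℝ), SqS f → IsSp (Ham φ c lam ω) f m →
            ∃ A : Set ℝ, A.Countable ∧ m Aᶜ = 0)) := by
  classical
  obtain ⟨α', β', cc, CC, hα', hβ', hF⟩ := free_ok hf1 hf2 hf3 d hd α β hα hβ h2
  obtain ⟨α1, hα1⟩ : ∃ α1 : ℝ, α1 = (α + α') / 2 := ⟨_, rfl⟩
  obtain ⟨β1, hβ1⟩ : ∃ β1 : ℝ, β1 = (β + β') / 2 := ⟨_, rfl⟩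
  obtain ⟨lam0, G, iG, iC, ι, χ, s, N, a, hl0, hl1, g1, g2, g3, g4, a0, a1, a2, a3, hmain⟩ :=
    iter halg hboot hclose hrst hwt hlim hf0 d α1 β1 α' β' cc CC ε (by linarith) (by linarith)
      (by linarith) hF hε
  have hinj : Function.Injective ι := fun x y hxy => by
    rw [← g1 x, ← g1 y, hxy]
  obtain ⟨w1, w2, w3, w4, w5, w6, w7, w8, w9, w10⟩ :=
    hwt d G ι s N a hinj g3 (fun n => (a0 n).le) a1
  have hcv0 : ∀ x : G, χ x ≠ 1 → cv s N a x = 0 := by
    intro x hx
    unfold cv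
    refine (tsum_congr fun n => ?_).trans tsum_zero
    rw [Finset.filter_false_of_mem]
    · simp
    · intro j _ h4
      exact hx (by rw [← h4]; exact g2 n j)
  obtain ⟨K, hK, hKa, hKi⟩ := hlay d G ι χ s N a g1 g2 g3 (fun n => (a0 n).le) a1
  obtain ⟨c, hcd⟩ : ∃ c : χ.ker → ℝ, c = fun q : χ.ker => cv s N a (q : G) :=
    ⟨_, rfl⟩
  have hval : Function.Injective (fun q : χ.ker => (q : G)) := Subtype.val_injective
  have hcs : ∀ p : ℝ, 0 < p → Summable fun q => c q ^ p := by
    intro p hp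
    rw [hcd]
    exact (w10 a3 p hp).comp_injective hval
  have hc0 : ∀ q, 0 ≤ c q := fun q => by rw [hcd]; exact w4 _
  have hKa2 : ∀ (u : LL ((Fin d → ℤ) × χ.ker)) (x : Fin d → ℤ) (f : χ.ker),
      K u (x, f) = -∑ i : Fin d, ((u (x + Pi.single i 1, f) - u (x, f)) +
          (u (x - Pi.single i 1, f) - u (x, f))) +
        ∑' q : χ.ker, ((c q : ℝ) : ℂ) *
          u (x, f * (MulAut.conjNormal.comp ι) (Multiplicative.ofAdd x) q) := by
    intro u x f
    rw [hcd]
    exact (hKa u x f).2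
  -- the action
  have hact : ∀ (lam B : ℝ) (V : Site d χ.ker → ℝ), |lam| ≤ |B| → ∀ (ω : Site d χ.ker → ℝ),
      (∀ x, |ω x| ≤ 1) → (∀ x, V x = lam * ω x) → ∀ (u : LL (Site d χ.ker)) (p : Site d χ.ker),
      Ham (MulAut.conjNormal.comp ι) c lam ω (fun y => u y) p = (K + Mw B V) u p := by
    intro lam B V hB ω hω hV u p
    obtain ⟨x, f⟩ := p
    have h5 : (K + Mw B V) u (x, f) = K u (x, f) + Mw B V u (x, f) := rfl
    rw [h5, hKa2, Mw_apply, hV]
    have h6 : |lam * ω (x, f)| ≤ |B| := by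
      rw [abs_mul]
      calc |lam| * |ω (x, f)| ≤ |B| * 1 := by
            gcongr
            exact hω _
        _ = |B| := mul_one _
    rw [clp_eq h6]
    rfl
  have hbd : ∀ (μ : Measure ℝ) [IsProbabilityMeasure μ], (∀ᵐ s ∂μ, |s| ≤ 1) →
      ∀ᵐ ω ∂(Measure.infinitePi fun _ : Site d χ.ker => μ), ∀ g, |ω g| ≤ 1 := by
    intro μ _ hμ
    rw [ae_all_iff]
    intro g
    have h1 := (measurePreserving_eval_infinitePi (fun _ : Site d χ.ker => μ)
      g).quasiMeasurePreserving
    exact h1.ae hμ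
  have hdv : ∀ p : Site d χ.ker, SqS (fun x => (dv p : LL (Site d χ.ker)) x) := fun p =>
    ll_summable _
  refine ⟨χ.ker, inferInstance, inferInstance, MulAut.conjNormal.comp ι, c, ?_, ?_, hc0, ?_, hcs,
    ?_, ?_, ?_⟩
  · -- locally finite
    intro S
    classical
    have h5 := g4 (S.image fun q : χ.ker => (q : G))
    refine Set.Finite.of_finite_image (f := fun q : χ.ker => (q : G)) (h5.subset ?_)
      hval.injOn
    rintro _ ⟨q, hq, rfl⟩
    refine ⟨?_, q.2⟩
    have h6 : (Subgroup.closure (S : Set χ.ker)).map χ.ker.subtype =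
        Subgroup.closure ((fun q : χ.ker => (q : G)) '' (S : Set χ.ker)) :=
      MonoidHom.map_closure _ _
    rw [Finset.coe_image, ← h6]
    exact ⟨q, hq, rfl⟩
  · -- finite orbits
    intro q
    classical
    have h5 := g4 (insert (q : G) (Finset.univ.image fun i : Fin d =>
      ι (Multiplicative.ofAdd (Pi.single i 1))))
    refine Set.Finite.of_finite_image (f := fun q : χ.ker => (q : G)) (h5.subset ?_)
      hval.injOn
    rintro _ ⟨_, ⟨x, rfl⟩, rfl⟩
    refine ⟨?_, ((MulAut.conjNormal.comp ι) x q).2⟩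
    obtain ⟨Γ, hΓ⟩ : ∃ Γ, Γ = Subgroup.closure ((insert (q : G) (Finset.univ.image
      fun i : Fin d => ι (Multiplicative.ofAdd (Pi.single i 1))) : Finset G) : Set G) := ⟨_, rfl⟩
    rw [← hΓ]
    have hq : (q : G) ∈ Γ := by
      rw [hΓ]
      exact Subgroup.subset_closure (by simp)
    have hx : ∀ x, ι x ∈ Γ := by
      intro x
      have h7 : ∀ i, ι (Multiplicative.ofAdd (Pi.single i (1 : ℤ) : Fin d → ℤ)) ∈ Γ := by
        intro i
        rw [hΓ]
        exact Subgroup.subset_closure (by simp)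
      have h8 : x = ∏ i : Fin d, (Multiplicative.ofAdd (Pi.single i (1 : ℤ) : Fin d → ℤ)) ^
          (Multiplicative.toAdd x i) := by
        apply Multiplicative.toAdd.injective
        rw [toAdd_prod]
        funext j
        rw [Finset.sum_apply, Finset.sum_eq_single j]
        · simp [toAdd_zpow]
        · intro i _ hij
          simp [toAdd_zpow, Pi.single_eq_of_ne hij.symm]
        · simp
      have h10 : x ∈ Γ.comap ι := by
        rw [h8]
        refine Subgroup.prod_mem _ fun i _ => ?_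
        have h11 : Multiplicative.ofAdd (Pi.single i (1 : ℤ) : Fin d → ℤ) ∈ Γ.comap ι := h7 i
        exact Subgroup.zpow_mem _ h11 _
      exact h10
    have h9 : (((MulAut.conjNormal.comp ι) x q : χ.ker) : G) = ι x * q * (ι x)⁻¹ := by
      simp [MulAut.conjNormal_apply]
    change (((MulAut.conjNormal.comp ι) x q : χ.ker) : G) ∈ Γ
    rw [h9]
    exact Γ.mul_mem (Γ.mul_mem (hx x) hq) (Γ.inv_mem (hx x))
  · intro q
    rw [hcd]
    exact w3.sy _
  · refine le_trans ?_ a2
    refine le_trans ?_ w9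
    rw [hcd]
    have h5 : Summable fun x => cv s N a x := by
      refine w3.sm.congr fun x => ?_
      rw [abs_of_nonneg (w4 x)]
    exact tsum_comp_le_tsum_of_inj h5 w4 hval
  · -- weak disorder
    refine ⟨lam0, hl0, fun μ _ hμ lam hlam hlam0 => ?_⟩
    have hgc : ContinuousOn (gZ d) {z | 0 < z.im} := by
      obtain ⟨f1, f2, f3⟩ := hf0 d G ι hinj
      have hRA : RA (fun s : G => Equiv.mulRight s) := ⟨fun x => by simp, fun s t x => by
        simp [mul_assoc]⟩
      have hKT : Rs (KT (b0 ι)) := (hc G G _ hRA _ _ f1 f1).2.2.1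
      have h6 := (hg G (KT (b0 ι)) hKT).2.2.2.2.2.2.1
      intro z0 hz0'
      have hz0 : 0 < z0.im := hz0'
      rw [ContinuousWithinAt, tendsto_iff_norm_sub_tendsto_zero]
      have h7 : Tendsto (fun z : ℂ => ‖z - z0‖ / (z.im * z0.im)) (𝓝[{z | 0 < z.im}] z0)
          (𝓝 (‖z0 - z0‖ / (z0.im * z0.im))) := by
        refine Tendsto.mono_left ?_ nhdsWithin_le_nhds
        refine Tendsto.div ?_ ?_ (by positivity)
        · exact (continuous_id.sub continuous_const).norm.tendsto z0
        · exact (Complex.continuous_im.mul continuous_const).tendsto z0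
      rw [sub_self, norm_zero, zero_div] at h7
      refine squeeze_zero' (Eventually.of_forall fun z => norm_nonneg _) ?_ h7
      filter_upwards [self_mem_nhdsWithin] with z hz'
      have hz : 0 < z.im := hz'
      rw [← f3 z hz, ← f3 z0 hz0]
      exact h6 z z0 1 1 hz hz0
    have hνp : IsProbabilityMeasure (μ.map fun t : ℝ => lam * t) :=
      Measure.isProbabilityMeasure_map (by fun_prop)
    have hν : ∀ᵐ t ∂(μ.map fun t : ℝ => lam * t), |t| ≤ lam0 := by
      rw [ae_map_iff (by fun_prop) (measurableSet_le (by fun_prop) (by fun_prop))]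
      filter_upwards [hμ] with t ht
      rw [abs_mul, abs_of_pos hlam]
      nlinarith [abs_nonneg t]
    have hae := hac (Site d χ.ker) (Site d χ.ker → ℝ) (Measure.infinitePi fun _ => μ) K
      (fun ω x => lam * ω x) (gZ d) α1 β1 cc CC (1 / 100) hK.sa
      (measurable_pi_iff.2 fun x => measurable_const.mul (measurable_pi_apply x)) hgc hF.c0
      (fun z y1 y2 y3 y4 => ⟨hF.lo z (by linarith) (by linarith) y3 (by linarith),
        hF.up z (by linarith) (by linarith) y3 (by linarith)⟩)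
      (fun z y1 y2 y3 y4 x => by
        have hfm : Measurable fun V : Site d χ.ker → ℝ => hu (Gr (HV K V) z x x) (gZ d z) ^ 2 := by
          have h6 := (hg (Site d χ.ker) K hK).2.2.2.2.2.2.2 z x x y3.ne'
          exact (hu_meas h6.measurable _).pow_const 2
        have h7 := scale_int μ lam (fun V : Site d χ.ker → ℝ =>
          hu (Gr (HV K V) z x x) (gZ d z) ^ 2) hfm
        refine (le_of_eq h7.symm).trans ?_
        have h8 := hKi (μ.map fun t : ℝ => lam * t) z (gZ d z) y3 x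
        refine (le_of_eq h8).trans ?_
        exact hmain (μ.map fun t : ℝ => lam * t) hν z y1.le y2.le y3 y4)
    filter_upwards [hbd μ hμ, hae] with ω hω h5
    obtain ⟨h6, h7⟩ := h5
    have hA : ∀ (u : LL (Site d χ.ker)) (p : Site d χ.ker),
        Ham (MulAut.conjNormal.comp ι) c lam ω (fun y => u y) p =
          (HV K fun x => lam * ω x) u p :=
      hact lam 1 (fun x => lam * ω x) (by
        rw [abs_of_pos hlam, abs_one]
        exact hlam0.trans hl1) ω hω (fun _ => rfl)
    have hsa : IsSelfAdjoint (HV K fun x => lam * ω x) :=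
      ((hg (Site d χ.ker) K hK).1 fun x => lam * ω x).1.sa
    refine ⟨fun f hf => ?_, fun f m hf hm A hA1 hA2 => ?_, fun p m hm A hA1 hA2 hA3 => ?_⟩
    · obtain ⟨m, hm, -⟩ := spm_exists (HV K fun x => lam * ω x) hsa (lmk f hf)
      exact ⟨m, of_sp _ _ hsa hA f hf m hm⟩
    · refine h6 _ m (sp_of _ _ hsa hA f hf m hm) A (hA1.trans ?_) hA2
      intro y hy
      exact ⟨by linarith [hy.1], by linarith [hy.2]⟩
    · have h8 := sp_of _ _ hsa hA _ (hdv p) m hm
      have h9 : lmk (fun x => (dv p : LL (Site d χ.ker)) x) (hdv p) = dv p := rfl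
      rw [h9] at h8
      refine h7 p m h8 A (hA1.trans ?_) hA2 hA3
      intro y hy
      exact ⟨by linarith [hy.1], by linarith [hy.2]⟩
  · -- strong disorder
    intro D hD
    obtain ⟨S, hS, hS2⟩ := hhop d χ.ker (MulAut.conjNormal.comp ι) c K hc0
      (hcs (1 / 2) (by norm_num)) hKa2
    obtain ⟨l1, hl1p, hl⟩ := hloc (1 / 2) S D (by norm_num) (by norm_num) hS hD
    refine ⟨l1, hl1p, fun μ _ hμ hμD lam hlam => ?_⟩
    have hae := hl (Site d χ.ker) K hK hS2 μ hμ hμD lam hlam
    filter_upwards [hbd μ hμ, hae] with ω hω h5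
    have hA : ∀ (u : LL (Site d χ.ker)) (p : Site d χ.ker),
        Ham (MulAut.conjNormal.comp ι) c lam ω (fun y => u y) p =
          (K + Mw lam fun x => lam * ω x) u p :=
      hact lam lam (fun x => lam * ω x) le_rfl ω hω (fun _ => rfl)
    have hsa : IsSelfAdjoint (K + Mw lam fun x => lam * ω x) :=
      hK.sa.add (Pool.Agent.Y662.TR.Mw_sa _ _)
    refine ⟨fun f hf => ?_, fun f m hf hm => ?_⟩
    · obtain ⟨m, hm, -⟩ := spm_exists (K + Mw lam fun x => lam * ω x) hsa (lmk f hf)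
      exact ⟨m, of_sp _ _ hsa hA f hf m hm⟩
    · exact h5 _ m (sp_of _ _ hsa hA f hf m hm)

end Pool.Agent.H987.Z
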