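import Pool.Agent.H987.Z.D1

/-! One stage: all energies, down to the real axis. -/

set_option autoImplicit false
set_option linter.unusedSectionVars false

open scoped BigOperators InnerProductSpace Topology
open Filter MeasureTheory

namespace Pool.Agent.H987.Z

open Pool.Agent.Y662.TR (LL Cf Mw dv hu hu_nonneg hu_comm cs_tsum bdd_int bdd_int_real)
open Pool.Agent.TH369.AN (Rz rz_eq rz_uniq)

/-- the free function on the domain `α ≤ Re z ≤ β`, `0 < Im z ≤ 2` -/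
structure Fr (g : ℂ → ℂ) (α β c C : ℝ) : Prop where
  c0 : 0 < c
  lo : ∀ z : ℂ, α ≤ z.re → z.re ≤ β → 0 < z.im → z.im ≤ 2 → c ≤ (g z).im
  up : ∀ z : ℂ, α ≤ z.re → z.re ≤ β → 0 < z.im → z.im ≤ 2 → ‖g z‖ ≤ C
  mo : ∀ δ : ℝ, 0 < δ → ∃ r : ℝ, 0 < r ∧ ∀ z z' : ℂ, α ≤ z.re → z.re ≤ β → 0 < z.im → z.im ≤ 2 →
    α ≤ z'.re → z'.re ≤ β → 0 < z'.im → z'.im ≤ 2 → ‖z - z'‖ ≤ r → ‖g z - g z'‖ ≤ δ

theorem Fr.cC {g : ℂ → ℂ} {α β c C : ℝ} (h : Fr g α β c C) (hαβ : α ≤ β) : c ≤ C := by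
  have h1 := h.lo ⟨α, 1⟩ le_rfl hαβ one_pos one_le_two
  have h2 := h.up ⟨α, 1⟩ le_rfl hαβ one_pos one_le_two
  exact h1.trans ((Complex.im_le_norm _).trans h2)

theorem Fr.mono {g : ℂ → ℂ} {α β α' β' c C : ℝ} (h : Fr g α' β' c C) (h1 : α' ≤ α)
    (h2 : β ≤ β') : Fr g α β c C where
  c0 := h.c0
  lo := fun z a b => h.lo z (h1.trans a) (b.trans h2)
  up := fun z a b => h.up z (h1.trans a) (b.trans h2)
  mo := by
    intro δ hδ
    obtain ⟨r, hr, hr2⟩ := h.mo δ hδ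
    exact ⟨r, hr, fun z z' a1 a2 a3 a4 b1 b2 b3 b4 =>
      hr2 z z' (h1.trans a1) (a2.trans h2) a3 a4 (h1.trans b1) (b2.trans h2) b3 b4⟩

theorem hu_small {a b : ℂ} {c δ : ℝ} (hc : 0 < c) (ha : c ≤ a.im) (hb : c ≤ b.im)
    (h : ‖a - b‖ ≤ δ) : 0 ≤ hu a b ∧ hu a b ≤ δ ^ 2 / c ^ 2 := by
  have h1 : 0 < a.im := hc.trans_le ha
  have h2 : 0 < b.im := hc.trans_le hb
  refine ⟨hu_nonneg h1 h2, ?_⟩
  unfold hu
  have h3 : c ^ 2 ≤ a.im * b.im := by nlinarith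
  have h4 : ‖a - b‖ ^ 2 ≤ δ ^ 2 := pow_le_pow_left₀ (norm_nonneg _) h 2
  gcongr

/-- the bounds of a stage -/
def PP {G : Type} [Group G] (b : G → ℝ) (ν : Measure ℝ) (g : ℂ → ℂ) (α β θ T e : ℝ) : Prop :=
  ∀ z : ℂ, α ≤ z.re → z.re ≤ β → θ ≤ z.im → z.im ≤ T →
    ∫ V, hu (GS b V z) (g z) ^ 2 ∂(Measure.infinitePi fun _ : G => ν) ≤ e

set_option maxHeartbeats 1000000 in
/-- the improvement of an a priori bound -/
theorem improve (h1 : S_hutri) (h2 : S_lln) (h3 : S_star) (hc : S_conv) (hg : S_green)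
    (ht : S_tree) (hr : S_root) (hs : S_split) (g : ℂ → ℂ) (α' β' c C ε κ : ℝ)
    (hF : Fr g α' β' c C) (hε : 0 < ε) (hε1 : ε ≤ 1) (hκ : 0 < κ) (hαβ' : α' ≤ β') :
    ∃ M0 : ℕ, ∃ l0 : ℝ, 0 < l0 ∧ ∀ (α β : ℝ), α' + κ ≤ α → β + κ ≤ β' →
      ∀ (G : Type) [Group G] [Countable G] (n : ℕ), M0 ≤ n + 1 →
      ∀ b : G → ℝ, Sy b → ∀ a : ℝ, 0 < a → a ^ 2 * (n + 1) ≤ l0 →
      ∀ (ν : Measure ℝ) [IsProbabilityMeasure ν] (e : ℝ), 0 ≤ e → e ≤ 1 / 4 →
      PP b ν g α' β' (a ^ 2 * (n + 1) * (c / 2)) 2 e →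
      ∀ z : ℂ, α ≤ z.re → z.re ≤ β → 0 < z.im → z.im ≤ 1 →
        ∫ V, hu (GB b a tr V z) (g z) ^ 2 ∂(Measure.infinitePi fun _ : Vt G n => ν) ≤ 1 / 100 →
        ∀ τ : Vt G n → Fin (n + 1) → ℝ, (τ = tr ∨ τ = tf) →
          ∫ V, hu (GB b a τ V z) (g z) ^ 2 ∂(Measure.infinitePi fun _ : Vt G n => ν) ≤
            (1 + ε) * e + ε := by
  have hcC := hF.cC hαβ'
  have hc0 := hF.c0
  have hC0 : 0 < C := hc0.trans_le hcC
  obtain ⟨ε', hε'⟩ : ∃ ε', ε' = ε / 4 := ⟨_, rfl⟩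
  have he0 : 0 < ε' := by rw [hε']; linarith
  have he1 : ε' ≤ 1 := by rw [hε']; linarith
  obtain ⟨M0, hM0⟩ := one_step h1 h2 h3 hc hg ht hr hs (C / c) ε'
    ((one_le_div hc0).2 hcC) he0 he1
  obtain ⟨K, hK0, hK⟩ := h1 ε' he0 he1
  obtain ⟨δ, hδd⟩ : ∃ δ : ℝ, δ = min c (c * (ε' / (2 * K))) := ⟨_, rfl⟩
  have hδ0 : 0 < δ := by rw [hδd]; positivity
  have hδ1 : δ ≤ c := by rw [hδd]; exact min_le_left _ _
  have hδ2 : 2 * K * δ ≤ c * ε' := by
    have h5 : δ ≤ c * (ε' / (2 * K)) := by rw [hδd]; exact min_le_right _ _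
    calc 2 * K * δ ≤ 2 * K * (c * (ε' / (2 * K))) := by gcongr
      _ = c * ε' := by field_simp
  obtain ⟨r, hr0, hr1⟩ := hF.mo δ hδ0
  obtain ⟨l0, hl0⟩ : ∃ l0 : ℝ, l0 = min (κ / (2 * C)) (min (r / (2 * C)) (1 / (2 * C))) :=
    ⟨_, rfl⟩
  have hl0p : 0 < l0 := by rw [hl0]; positivity
  refine ⟨M0, l0, hl0p, ?_⟩
  intro α β hα hβ G _ _ n hn b hb a ha hal ν _ e hee he4 hPP z hz1 hz2 hz3 hz4 hap τ hτ
  obtain ⟨l, hl⟩ : ∃ l : ℝ, l = a ^ 2 * (n + 1) := ⟨_, rfl⟩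
  rw [← hl] at hal hPP
  have hlp : 0 < l := by rw [hl]; positivity
  have hl1 : l * (2 * C) ≤ κ := by
    have : l ≤ κ / (2 * C) := hal.trans (by rw [hl0]; exact min_le_left _ _)
    rwa [le_div_iff₀ (by positivity)] at this
  have hl2 : l * (2 * C) ≤ r := by
    have : l ≤ r / (2 * C) := hal.trans (by
      rw [hl0]; exact (min_le_right _ _).trans (min_le_left _ _))
    rwa [le_div_iff₀ (by positivity)] at this
  have hl3 : l * (2 * C) ≤ 1 := by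
    have : l ≤ 1 / (2 * C) := hal.trans (by
      rw [hl0]; exact (min_le_right _ _).trans (min_le_right _ _))
    rwa [le_div_iff₀ (by positivity)] at this
  have hz1' : α' ≤ z.re := by linarith
  have hz2' : z.re ≤ β' := by linarith
  have hz4' : z.im ≤ 2 := by linarith
  have hglo := hF.lo z hz1' hz2' hz3 hz4'
  have hgup := hF.up z hz1' hz2' hz3 hz4'
  have hgi : 0 < (g z).im := hc0.trans_le hglo
  have hgρ : ‖g z‖ ≤ C / c * (g z).im := by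
    calc ‖g z‖ ≤ C := hgup
      _ = C / c * c := by field_simp
      _ ≤ C / c * (g z).im := by gcongr
  obtain ⟨m, hm⟩ : ∃ m, m = ∫ V, GB b a tr V z ∂(Measure.infinitePi fun _ : Vt G n => ν) :=
    ⟨_, rfl⟩
  obtain ⟨c1, c2⟩ := hM0 G n hn b hb a ha ν z (g z) hz3 hgi hgρ hap m hm
  rw [← hl] at c2
  have hmi : c / 2 ≤ m.im := by
    have h5 := Complex.abs_im_le_norm (m - g z)
    rw [Complex.sub_im] at h5
    have h6 := (abs_le.1 (h5.trans c1)).1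
    linarith
  have hmn : ‖m‖ ≤ 2 * C := by
    have h5 : ‖m‖ ≤ ‖m - g z‖ + ‖g z‖ := by
      calc ‖m‖ = ‖(m - g z) + g z‖ := by ring_nf
        _ ≤ _ := norm_add_le _ _
    have h6 : (g z).im ≤ C := (Complex.im_le_norm _).trans hgup
    linarith
  obtain ⟨z', hz'⟩ : ∃ z', z' = z + ((l : ℝ) : ℂ) * m := ⟨_, rfl⟩
  have hzz : ‖z' - z‖ ≤ l * (2 * C) := by
    have : z' - z = ((l : ℝ) : ℂ) * m := by rw [hz']; ring
    rw [this, norm_mul, Complex.norm_real, Real.norm_of_nonneg hlp.le]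
    gcongr
  have hre : |z'.re - z.re| ≤ l * (2 * C) := by
    have := (Complex.abs_re_le_norm (z' - z)).trans hzz
    rwa [Complex.sub_re] at this
  have him : |z'.im - z.im| ≤ l * (2 * C) := by
    have := (Complex.abs_im_le_norm (z' - z)).trans hzz
    rwa [Complex.sub_im] at this
  have hz'i : z'.im = z.im + l * m.im := by
    rw [hz', Complex.add_im, Complex.im_ofReal_mul]
  obtain ⟨r1, r2⟩ := abs_le.1 hre
  obtain ⟨i1, i2⟩ := abs_le.1 him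
  have w1 : α' ≤ z'.re := by linarith
  have w2 : z'.re ≤ β' := by linarith
  have w3 : l * (c / 2) ≤ z'.im := by rw [hz'i]; nlinarith
  have w4 : z'.im ≤ 2 := by linarith
  have w5 : 0 < z'.im := lt_of_lt_of_le (by positivity) w3
  have hPz := hPP z' w1 w2 w3 w4
  have hg'lo := hF.lo z' w1 w2 w5 w4
  have hg'i : 0 < (g z').im := hc0.trans_le hg'lo
  have hd := hr1 z z' hz1' hz2' hz3 hz4' w1 w2 w5 w4 (by
    rw [norm_sub_rev]; linarith)
  obtain ⟨u0, u1⟩ := hu_small hc0 hglo hg'lo hd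
  have u2 : K * hu (g z) (g z') ^ 2 * 2 ≤ ε' := by
    have u3 : δ ^ 2 / c ^ 2 ≤ 1 := by
      rw [div_le_one (by positivity)]
      exact pow_le_pow_left₀ hδ0.le hδ1 2
    have u4 : hu (g z) (g z') ≤ 1 := u1.trans u3
    have u5 : δ ^ 2 / c ^ 2 ≤ δ / c := by
      rw [div_le_div_iff₀ (by positivity) hc0]
      nlinarith [mul_pos hδ0 hc0]
    have u6 : hu (g z) (g z') ^ 2 ≤ δ / c := by
      calc hu (g z) (g z') ^ 2 = hu (g z) (g z') * hu (g z) (g z') := sq _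
        _ ≤ hu (g z) (g z') * 1 := by gcongr
        _ ≤ δ / c := by rw [mul_one]; exact u1.trans u5
    calc K * hu (g z) (g z') ^ 2 * 2 ≤ K * (δ / c) * 2 := by gcongr
      _ = 2 * K * δ / c := by ring
      _ ≤ c * ε' / c := by gcongr
      _ = ε' := by field_simp
  -- shift the reference point
  have hRA : RA (fun s : G => Equiv.mulRight s) := ⟨fun x => by simp, fun s t x => by
    simp [mul_assoc]⟩
  obtain ⟨-, hKTn, hKT, -⟩ := hc G G _ hRA b b hb hb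
  have hY : Bd (fun V : G → ℝ => GS b V z') (1 / z'.im) (z'.im / (N1 b + 1 + ‖z'‖) ^ 2) :=
    bd_gr hg (KT b) hKT _ hKTn z' w5 1
  obtain ⟨P, hP⟩ : ∃ P, P = Measure.infinitePi fun _ : G => ν := ⟨_, rfl⟩
  have hPp : IsProbabilityMeasure P := by rw [hP]; infer_instance
  rw [← hP] at hPz c2
  have hsh : ∫ V, hu (GS b V z') (g z) ^ 2 ∂P ≤ (1 + ε') * e + ε' := by
    have hpt : ∀ V : G → ℝ, hu (GS b V z') (g z) ^ 2 ≤
        (1 + 2 * ε') * hu (GS b V z') (g z') ^ 2 + ε' / 2 := by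
      intro V
      have h8 := hK (g z) (g z') (GS b V z') hgi hg'i (hY.pos V)
      rw [hu_comm (g z) (GS b V z'), hu_comm (g z') (GS b V z')] at h8
      have h9 : 0 ≤ hu (GS b V z') (g z') ^ 2 := sq_nonneg _
      have h12 : K * hu (g z) (g z') ^ 2 ≤ ε' / 2 := by clear * - u2; linarith
      have h13 : K * hu (g z) (g z') ^ 2 * (1 + hu (GS b V z') (g z') ^ 2) ≤
          ε' / 2 * (1 + hu (GS b V z') (g z') ^ 2) :=
        mul_le_mul_of_nonneg_right h12 (by clear * - h9; linarith)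
      refine h8.trans ?_
      calc (1 + ε') * hu (GS b V z') (g z') ^ 2 +
            K * hu (g z) (g z') ^ 2 * (1 + hu (GS b V z') (g z') ^ 2) ≤
            (1 + ε') * hu (GS b V z') (g z') ^ 2 + ε' / 2 * (1 + hu (GS b V z') (g z') ^ 2) := by
            gcongr
        _ = (1 + 3 / 2 * ε') * hu (GS b V z') (g z') ^ 2 + ε' / 2 := by ring
        _ ≤ _ := by
            gcongr
            clear * - he0
            linarith
    have j1 := hY.int2 hgi P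
    have j2 := hY.int2 hg'i P
    have j3 : Integrable (fun V : G → ℝ => (1 + 2 * ε') * hu (GS b V z') (g z') ^ 2) P :=
      j2.const_mul (1 + 2 * ε')
    have j4 : Integrable (fun _ : G → ℝ => ε' / 2) P := integrable_const _
    have h10 : ∫ V : G → ℝ, ((1 + 2 * ε') * hu (GS b V z') (g z') ^ 2 + ε' / 2) ∂P =
        (1 + 2 * ε') * (∫ V, hu (GS b V z') (g z') ^ 2 ∂P) + ε' / 2 := by
      rw [integral_add j3 j4, integral_const_mul, integral_const]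
      simp
    refine (integral_mono j1 (j3.add j4) hpt).trans (le_trans h10.le ?_)
    have h11 : (1 + 2 * ε') * ∫ V, hu (GS b V z') (g z') ^ 2 ∂P ≤ (1 + 2 * ε') * e :=
      mul_le_mul_of_nonneg_left hPz (by clear * - he0; linarith)
    clear * - h11 hee he4 he0
    nlinarith
  have hle1 : (1 + ε') * e + ε' ≤ 1 := by
    clear * - hee he4 he0 hε' hε1
    nlinarith
  rw [hz'] at hsh
  refine (c2 _ hle1 hsh τ hτ).trans ?_
  rw [hε']
  clear * - hee he4 hε hε1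
  have k1 : ε ^ 2 ≤ ε := by nlinarith
  have k2 : ε ^ 2 * e ≤ ε * e := mul_le_mul_of_nonneg_right k1 hee
  have k3 : 0 ≤ ε * e := mul_nonneg hε.le hee
  nlinarith

end Pool.Agent.H987.Z
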