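import Pool.Agent.H987.Z.StE

/-! The iteration of the stages. -/

set_option autoImplicit false
set_option linter.unusedSectionVars false

open scoped BigOperators InnerProductSpace Topology
open Filter MeasureTheory

namespace Pool.Agent.H987.Z

open Pool.Agent.Y662.TR (LL Cf Mw dv hu hu_nonneg)

theorem N1_tri {G : Type} [Group G] {b b' : G → ℝ} (hb : Sy b) (hb' : Sy b') :
    N1 b ≤ N1 b' + N1 (fun x => b x - b' x) := by
  unfold N1
  have h1 : Summable fun x => |b x - b' x| := by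
    refine Summable.of_nonneg_of_le (fun x => abs_nonneg _) (fun x => ?_) (hb.sm.add hb'.sm)
    exact abs_sub _ _
  rw [← hb'.sm.tsum_add h1]
  refine hb.sm.tsum_le_tsum (fun x => ?_) (hb'.sm.add h1)
  have := abs_add_le (b' x) (b x - b' x)
  rwa [add_sub_cancel] at this

/-- the parameters of the stages -/
theorem choose_a (l0 : ℕ → ℝ) (hl0 : ∀ n, 0 < l0 n) (N : ℕ → ℕ) (c δ : ℝ) (hc : 0 < c)
    (hδ : 0 < δ) :
    ∃ a : ℕ → ℝ, (∀ n, 0 < a n) ∧ (∀ n, a n ^ 2 * (N n + 1) ≤ l0 n) ∧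
      (∀ n, a n ^ 2 * (N n + 1) * (c / 2) ≤ 1) ∧ (∀ n, a n * (N n + 1) ≤ δ * (1 / 2) ^ (n + 1)) ∧
      (∀ n, a n ^ 2 * (N n + 1) * (c / 2) ≤ c / 2 * (a n * (N n + 1))) ∧
      ∀ p : ℝ, 0 < p → Summable fun n => a n ^ p * (N n + 1) := by
  obtain ⟨m, hm⟩ : ∃ m : ℕ → ℝ, m = fun n => min (l0 n) (min (2 / c) (δ * (1 / 2) ^ (n + 1))) :=
    ⟨_, rfl⟩
  have hm0 : ∀ n, 0 < m n := by
    intro n
    rw [hm]
    have := hl0 n
    positivity
  obtain ⟨x, hx⟩ : ∃ x : ℕ → ℝ, x = fun n => ((N n : ℝ) + 1)⁻¹ * (1 / 2) ^ n := ⟨_, rfl⟩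
  have hx0 : ∀ n, 0 < x n := by
    intro n
    rw [hx]
    positivity
  have hx1 : ∀ n, x n ≤ 1 := by
    intro n
    rw [hx]
    have h1 : ((N n : ℝ) + 1)⁻¹ ≤ 1 := inv_le_one_of_one_le₀ (by
      have : (0 : ℝ) ≤ N n := Nat.cast_nonneg _
      linarith)
    have h2 : ((1 : ℝ) / 2) ^ n ≤ 1 := pow_le_one₀ (by norm_num) (by norm_num)
    calc ((N n : ℝ) + 1)⁻¹ * (1 / 2) ^ n ≤ 1 * 1 := by gcongr
      _ = 1 := one_mul 1
  obtain ⟨a, ha⟩ : ∃ a : ℕ → ℝ, a = fun n => min (m n / (N n + 1)) (x n ^ (n + 1)) := ⟨_, rfl⟩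
  have ha0 : ∀ n, 0 < a n := by
    intro n
    rw [ha]
    have h1 := hm0 n
    have h2 := hx0 n
    positivity
  have ha1 : ∀ n, a n ≤ 1 := by
    intro n
    rw [ha]
    exact (min_le_right _ _).trans (pow_le_one₀ (hx0 n).le (hx1 n))
  have ham : ∀ n, a n * (N n + 1) ≤ m n := by
    intro n
    have : a n ≤ m n / (N n + 1) := by rw [ha]; exact min_le_left _ _
    rwa [le_div_iff₀ (by positivity)] at this
  have ha2 : ∀ n, a n ^ 2 * (N n + 1) ≤ a n * (N n + 1) := by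
    intro n
    have h1 := ha0 n
    have h2 := ha1 n
    have h3 : a n ^ 2 ≤ a n := by nlinarith
    gcongr
  refine ⟨a, ha0, fun n => ?_, fun n => ?_, fun n => ?_, fun n => ?_, fun p hp => ?_⟩
  · refine ((ha2 n).trans (ham n)).trans ?_
    rw [hm]
    exact min_le_left _ _
  · have h1 : a n ^ 2 * (N n + 1) ≤ 2 / c := by
      refine ((ha2 n).trans (ham n)).trans ?_
      rw [hm]
      exact (min_le_right _ _).trans (min_le_left _ _)
    calc a n ^ 2 * (N n + 1) * (c / 2) ≤ 2 / c * (c / 2) := by gcongr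
      _ = 1 := by field_simp
  · refine (ham n).trans ?_
    rw [hm]
    exact (min_le_right _ _).trans (min_le_right _ _)
  · have h1 := ha2 n
    nlinarith
  · obtain ⟨n0, hn0⟩ := exists_nat_ge (1 / p)
    have hp1 : ∀ n, n0 ≤ n → 1 ≤ ((n : ℝ) + 1) * p := by
      intro n hn
      have h1 : (n0 : ℝ) ≤ n := by exact_mod_cast hn
      have h2 : 1 / p ≤ (n : ℝ) + 1 := by linarith
      rwa [div_le_iff₀ hp] at h2
    have hb : ∀ n, n0 ≤ n → a n ^ p * (N n + 1) ≤ (1 / 2) ^ n := by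
      intro n hn
      have h1 : a n ≤ x n ^ (n + 1) := by rw [ha]; exact min_le_right _ _
      have h2 : a n ^ p ≤ x n := by
        calc a n ^ p ≤ (x n ^ (n + 1)) ^ p := Real.rpow_le_rpow (ha0 n).le h1 hp.le
          _ = x n ^ (((n : ℝ) + 1) * p) := by
              rw [Real.rpow_mul (hx0 n).le, ← Real.rpow_natCast]
              push_cast
              rfl
          _ ≤ x n ^ (1 : ℝ) := Real.rpow_le_rpow_of_exponent_ge (hx0 n) (hx1 n) (hp1 n hn)
          _ = x n := Real.rpow_one _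
      calc a n ^ p * (N n + 1) ≤ x n * (N n + 1) := by gcongr
        _ = (1 / 2) ^ n := by
            rw [hx]
            have : ((N n : ℝ) + 1) ≠ 0 := by positivity
            field_simp
    rw [← summable_nat_add_iff n0]
    refine Summable.of_nonneg_of_le (fun n => ?_) (fun n => hb (n + n0) (by omega)) ?_
    · have := ha0 (n + n0)
      positivity
    · have h3 : Summable fun n : ℕ => ((1 : ℝ) / 2) ^ n :=
        summable_geometric_of_lt_one (by norm_num) (by norm_num)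
      exact (summable_nat_add_iff n0).2 h3

/-- **the iteration** -/
theorem iter (halg : S_alg) (hboot : S_boot) (hclose : S_close) (hrst : S_rst) (hwt : S_wt)
    (hlim : S_lim) (hf0 : S_free0) (d : ℕ) (α β α' β' c C δ0 : ℝ) (h1 : α' < α) (h2 : α ≤ β)
    (h3 : β < β') (hF : Fr (gZ d) α' β' c C) (hδ0 : 0 < δ0) :
    ∃ (lam0 : ℝ) (G : Type) (_ : Group G) (_ : Countable G)
      (ι : Multiplicative (Fin d → ℤ) →* G) (χ : G →* Multiplicative (Fin d → ℤ))
      (s : ℕ → ℕ → G) (N : ℕ → ℕ) (a : ℕ → ℝ), 0 < lam0 ∧ lam0 ≤ 1 ∧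
      (∀ x, χ (ι x) = x) ∧ (∀ n j, χ (s n j) = 1) ∧ (∀ n j, s n j * s n j = 1) ∧
      (∀ S : Finset G, {x : G | x ∈ Subgroup.closure (S : Set G) ∧ χ x = 1}.Finite) ∧
      (∀ n, 0 < a n) ∧ (Summable fun n => a n * (N n + 1)) ∧ (∑' n, a n * (N n + 1) ≤ δ0) ∧
      (∀ p : ℝ, 0 < p → Summable fun n => a n ^ p * (N n + 1)) ∧
      ∀ (ν : Measure ℝ) [IsProbabilityMeasure ν], (∀ᵐ t ∂ν, |t| ≤ lam0) →
        ∀ z : ℂ, α ≤ z.re → z.re ≤ β → 0 < z.im → z.im ≤ 1 →
          ∫ V, hu (GS (bi ι s N a) V z) (gZ d z) ^ 2 ∂(Measure.infinitePi fun _ : G => ν) ≤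
            1 / 100 := by
  have hc0 := hF.c0
  obtain ⟨κt, hκt⟩ : ∃ κt : ℝ, κt = min (α - α') (β' - β) := ⟨_, rfl⟩
  have hκt0 : 0 < κt := by
    rw [hκt]
    exact lt_min (by linarith) (by linarith)
  have hκ1 : κt ≤ α - α' := by rw [hκt]; exact min_le_left _ _
  have hκ2 : κt ≤ β' - β := by rw [hκt]; exact min_le_right _ _
  obtain ⟨q, hq⟩ : ∃ q : ℕ → ℝ, q = fun n => (1 / 2) ^ n := ⟨_, rfl⟩
  have hq0 : ∀ n, 0 < q n := by intro n; rw [hq]; positivity
  have hq1 : ∀ n, q n ≤ 1 := by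
    intro n
    rw [hq]
    exact pow_le_one₀ (by norm_num) (by norm_num)
  have hqs : ∀ n, q (n + 1) = q n / 2 := by
    intro n
    rw [hq]
    simp only
    rw [pow_succ]
    ring
  obtain ⟨A, hA⟩ : ∃ A : ℕ → ℝ, A = fun n => α' + κt * (1 - q n) := ⟨_, rfl⟩
  obtain ⟨B, hB⟩ : ∃ B : ℕ → ℝ, B = fun n => β' - κt * (1 - q n) := ⟨_, rfl⟩
  have hA1 : ∀ n, α' ≤ A n := by
    intro n
    rw [hA]
    have := hq1 n
    simp only
    nlinarith
  have hA2 : ∀ n, A n ≤ α := by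
    intro n
    rw [hA]
    have := hq0 n
    simp only
    nlinarith
  have hB1 : ∀ n, B n ≤ β' := by
    intro n
    rw [hB]
    have := hq1 n
    simp only
    nlinarith
  have hB2 : ∀ n, β ≤ B n := by
    intro n
    rw [hB]
    have := hq0 n
    simp only
    nlinarith
  have hAs : ∀ n, A n + κt * q (n + 1) ≤ A (n + 1) := by
    intro n
    rw [hA]
    simp only
    rw [hqs]
    linarith
  have hBs : ∀ n, B (n + 1) + κt * q (n + 1) ≤ B n := by
    intro n
    rw [hB]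
    simp only
    rw [hqs]
    linarith
  have hFn : ∀ n, Fr (gZ d) (A n) (B n) c C := fun n => hF.mono (hA1 n) (hB1 n)
  have hAB : ∀ n, A n ≤ B n := fun n => ((hA2 n).trans h2).trans (hB2 n)
  obtain ⟨ε, hε⟩ : ∃ ε : ℕ → ℝ, ε = fun n => q n / 10000 := ⟨_, rfl⟩
  obtain ⟨e, he⟩ : ∃ e : ℕ → ℝ, e = fun n => (2 - q n) / 1000 := ⟨_, rfl⟩
  have hε0 : ∀ n, 0 < ε n := by intro n; rw [hε]; have := hq0 n; positivity
  have hε1 : ∀ n, ε n ≤ 1 := by intro n; rw [hε]; have := hq1 n; simp only; linarith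
  have he0 : ∀ n, 1 / 1000 ≤ e n := by intro n; rw [he]; have := hq1 n; simp only; linarith
  have he1 : ∀ n, e n ≤ 2 / 1000 := by intro n; rw [he]; have := hq0 n; simp only; linarith
  have hf1 : ∀ n, (1 + ε n) * e n + ε n ≤ 1 / 200 := by
    intro n
    have a1 := hε0 n
    have a2 : ε n ≤ 1 / 10000 := by rw [hε]; have := hq1 n; simp only; linarith
    have a3 := he1 n
    have a4 := he0 n
    nlinarith
  have hes : ∀ n, (1 + ε n) * ((1 + ε n) * e n + ε n) + ε n ≤ e (n + 1) := by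
    intro n
    have a3 := he1 n
    have a4 := he0 n
    have a5 := hf1 n
    have b1 : ε n = q n / 10000 := by rw [hε]
    have b2 : e n = (2 - q n) / 1000 := by rw [he]
    have b3 : e (n + 1) = (2 - q n / 2) / 1000 := by rw [he]; simp only; rw [hqs]
    have b4 := hq0 n
    have b5 := hq1 n
    obtain ⟨f, hf⟩ : ∃ f, f = (1 + ε n) * e n + ε n := ⟨_, rfl⟩
    rw [← hf] at a5 ⊢
    have b6 : f ≤ e n + 2 * ε n := by
      rw [hf]
      have : 0 < ε n := hε0 n
      nlinarith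
    have b7 : ε n * f ≤ ε n := by
      have : 0 < ε n := hε0 n
      nlinarith
    have b8 : (1 + ε n) * f + ε n ≤ e n + 4 * ε n := by nlinarith
    rw [b1, b2] at b8
    rw [b3, b1]
    linarith
  -- choices
  have hch := fun n => hboot (gZ d) (A n) (B n) c C (ε n) (κt * q (n + 1)) (hFn n) (hε0 n)
    (hε1 n) (mul_pos hκt0 (hq0 _)) (hAB n)
  choose M0 l0 hl0 hbt using hch
  obtain ⟨N, hN⟩ : ∃ N : ℕ → ℕ, N = M0 := ⟨_, rfl⟩
  obtain ⟨δ1, hδ1, hcl1⟩ := hclose (gZ d) α' β' c C hF 1 (1 / 1000) one_pos (by norm_num)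
  obtain ⟨δ, hδ⟩ : ∃ δ : ℝ, δ = min δ0 (δ1 / 4) := ⟨_, rfl⟩
  have hδp : 0 < δ := by rw [hδ]; positivity
  have hδa : δ ≤ δ0 := by rw [hδ]; exact min_le_left _ _
  have hδb : δ ≤ δ1 / 4 := by rw [hδ]; exact min_le_right _ _
  obtain ⟨a, ha0, ha1, ha2, ha3, ha4, ha5⟩ := choose_a l0 hl0 N c δ hc0 hδp
  have hgeo : HasSum (fun n : ℕ => δ * (1 / 2 : ℝ) ^ (n + 1)) δ := by
    have h5 := (hasSum_geometric_two).mul_left (δ * (1 / 2))
    have h6 : δ * (1 / 2) * 2 = δ := by ring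
    rw [h6] at h5
    refine h5.congr_fun ?_ |> fun h => h
    intro n
    ring
  have hsm : Summable fun n => a n * (N n + 1) := by
    refine Summable.of_nonneg_of_le (fun n => ?_) ha3 hgeo.summable
    have := ha0 n
    positivity
  have hsum : ∑' n, a n * (N n + 1) ≤ δ := by
    rw [← hgeo.tsum_eq]
    exact hsm.tsum_le_tsum ha3 hgeo.summable
  obtain ⟨θ, hθ⟩ : ∃ θ : ℕ → ℝ, θ = fun n => a n ^ 2 * (N n + 1) * (c / 2) := ⟨_, rfl⟩
  have hθ0 : ∀ n, 0 < θ n := by intro n; rw [hθ]; have := ha0 n; positivity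
  have hθ1 : ∀ n, θ n ≤ 1 := by intro n; rw [hθ]; exact ha2 n
  obtain ⟨δ2, hδ2, hcl2⟩ := hclose (gZ d) α' β' c C hF (θ 0) (1 / 1000) (hθ0 0) (by norm_num)
  obtain ⟨h, hh⟩ : ∃ h : ℝ, h = 4 * d + δ1 + 2 := ⟨_, rfl⟩
  have hh0 : 0 < h := by rw [hh]; positivity
  have hcr := fun n => hrst (gZ d) (A (n + 1)) (B (n + 1)) c C (hFn (n + 1)) (θ (n + 1)) (ε n) h
    (hθ0 _) (hθ1 _) (hε0 n) (hε1 n) hh0
  choose t ht using hcr
  obtain ⟨G, iG, iC, ι, χ, s, g1, g2, g3, g4, g5⟩ := halg d (fun n => N n + 1) t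
  have hinj : Function.Injective ι := fun x y hxy => by
    rw [← g1 x, ← g1 y, hxy]
  obtain ⟨w1, w2, w3, w4, w5, w6, w7, w8, w9, w10⟩ :=
    hwt d G ι s N a hinj g3 (fun n => (ha0 n).le) hsm
  obtain ⟨f1, f2, f3⟩ := hf0 d G ι hinj
  refine ⟨min (δ1 / 4) (min δ2 1), G, iG, iC, ι, χ, s, N, a, by positivity,
    (min_le_right _ _).trans (min_le_right _ _), g1, g2, g3, g4, ha0, hsm, hsum.trans hδa, ha5,
    ?_⟩
  intro ν _ hν z hz1 hz2 hz3 hz4
  have hν1 : ∀ᵐ t ∂ν, |t| ≤ δ1 := hν.mono fun t ht => by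
    have := ht.trans (min_le_left _ _)
    linarith
  have hν2 : ∀ᵐ t ∂ν, |t| ≤ δ2 := hν.mono fun t ht =>
    ht.trans ((min_le_right _ _).trans (min_le_left _ _))
  have hcl3 : ∀ n, N1 (fun x => bn ι s N a n x - b0 ι x) ≤ δ1 / 4 := fun n =>
    (w5 n).trans (hsum.trans hδb)
  have han : ∀ n, 2 * |a n| * (N n + 1) ≤ δ1 / 4 := by
    intro n
    rw [abs_of_pos (ha0 n)]
    have h5 := ha3 n
    have h6 : ((1 : ℝ) / 2) ^ (n + 1) ≤ 1 / 2 := by
      rw [pow_succ]
      have : ((1 : ℝ) / 2) ^ n ≤ 1 := pow_le_one₀ (by norm_num) (by norm_num)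
      linarith
    have h7 : δ * (1 / 2) ^ (n + 1) ≤ δ * (1 / 2) := by gcongr
    linarith
  have hbd : ∀ n, N1 (bn ι s N a n) + 2 * |a n| * (N n + 1) + 1 ≤ h := by
    intro n
    have h5 := N1_tri (w1 n) f1
    have h6 := hcl3 n
    have h7 := han n
    rw [hh]
    linarith
  -- the induction
  have hind : ∀ n, PP (bn ι s N a n) ν (gZ d) (A n) (B n) (θ n) 2 (e n) := by
    intro n
    induction n with
    | zero =>
      intro z hz1 hz2 hz3 hz4
      refine le_trans ?_ (he0 0)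
      refine (hcl2 G (b0 ι) (bn ι s N a 0) f1 (w1 0) f3 ν hν2 z ((hA1 0).trans hz1)
        (hz2.trans (hB1 0)) hz3 hz4).1 ?_
      have : N1 (fun x => bn ι s N a 0 x - b0 ι x) = 0 := by
        unfold N1 bn
        simp
      rw [this]
      exact hδ2.le
    | succ n ih =>
      intro z hz1 hz2 hz3 hz4
      rcases le_total z.im 1 with hz5 | hz5
      · obtain ⟨r1, r2, r3⟩ := ht n G (N n) (bn ι s N a n) (a n) (fun j => s n j)
          (En ι s (fun k => N k + 1) n) (w1 n) (w8 n) (w7 n) (fun j => g3 n j) (g5 n) (hbd n)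
        refine le_trans (r3 ν ((1 + ε n) * e n + ε n) ?_ ?_ ?_ z hz1 hz2 hz3 hz5) (hes n)
        · have := he0 n
          have := hε0 n
          positivity
        · exact (hf1 n).trans (by norm_num)
        · intro z' hz1' hz2' hz3' hz4'
          refine hbt n (A (n + 1)) (B (n + 1)) (hAs n) (hBs n) G (N n) (by rw [hN]; omega)
            (bn ι s N a n) (w1 n) (a n) (ha0 n) (ha1 n) ν (e n) (by have := he0 n; linarith)
            (hf1 n) ?_ ?_ z' hz1' hz2' ((hθ0 _).trans_le hz3') hz4' tf (Or.inr rfl)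
          · rw [hθ] at ih
            exact ih
          · intro z'' y1 y2 y3
            refine ((hcl1 G (b0 ι) (bn ι s N a n) f1 (w1 n) f3 ν hν1 z'' ((hA1 _).trans y1)
              (y2.trans (hB1 _)) y3.ge (by rw [y3]; norm_num)).2 (N n) (a n) ?_ tr
              (Or.inl rfl)).trans (by norm_num)
            have := hcl3 n
            have := han n
            linarith
      · refine le_trans ?_ (he0 (n + 1))
        refine (hcl1 G (b0 ι) (bn ι s N a (n + 1)) f1 (w1 _) f3 ν hν1 z ((hA1 _).trans hz1)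
          (hz2.trans (hB1 _)) hz5 hz4).1 ?_
        have := hcl3 (n + 1)
        linarith
  -- the limit
  have hgz : 0 < (gZ d z).im :=
    hc0.trans_le (hF.lo z (by linarith) (by linarith) hz3 (by linarith))
  refine hlim G (bn ι s N a) (bi ι s N a) w1 w2 ?_ ν z (gZ d z) (1 / 100) hz3 hgz ?_
  · refine squeeze_zero (fun n => ?_) w6 ?_
    · unfold N1
      exact tsum_nonneg fun x => abs_nonneg _
    · have h5 := tendsto_sum_nat_add (fun k => a k * ((N k : ℝ) + 1))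
      refine h5.congr fun n => ?_
      refine tsum_congr fun k => ?_
      rw [add_comm k n]
  · have h5 : Tendsto θ atTop (𝓝 0) := by
      have h6 : Tendsto (fun n => c / 2 * (a n * (N n + 1))) atTop (𝓝 (c / 2 * 0)) :=
        hsm.tendsto_atTop_zero.const_mul _
      rw [mul_zero] at h6
      refine squeeze_zero (fun n => (hθ0 n).le) (fun n => ?_) h6
      rw [hθ]
      exact ha4 n
    filter_upwards [h5.eventually_le_const hz3] with n hn
    refine (hind n z ((hA2 n).trans hz1) (hz2.trans (hB2 n)) hn (by linarith)).trans ?_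
    have := he1 n
    linarith

end Pool.Agent.H987.Z
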