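import Pool.Agent.H987.Z.Defs

/-! Statements, part A (algebra). -/

set_option autoImplicit false

namespace Pool.Agent.H987.Z

/-- the value of a word in a group `Q`, for a homomorphism `ρ : C →* Q` and elements `σ j` -/
def evC {C Q : Type} [Group C] [Group Q] {M : ℕ} (ρ : C →* Q) (σ : Fin M → Q) :
    List (C × Fin M) → Q
  | [] => 1
  | (u, j) :: l => evC ρ σ l * ρ u * σ j

/-- **A1 (finite local free products).** For a finite group `C` there are a finite group `Q`, a
homomorphism `ρ : C →* Q` and involutions `σ j` of `Q` (`j < M`) such that the reduced words of length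
at most `r` have different values.

Proof. `W = C × {l : List (C × Fin M) // l.length ≤ r}`, `Q = Equiv.Perm W` (`f * g = f ∘ g`).
`ρ c (x, l) = (x * c⁻¹, l)`. `σ j` is the involution:
* drop: if `x = 1`, `l = (u, j) :: l'` and NOT (`u = 1` and the head of `l'` has colour `j`):
  `(x, l) ↦ (u, l')`;
* append: if NOT (`x = 1` and the head of `l` has colour `j`) and `l.length < r`:
  `(x, l) ↦ (1, (x, j) :: l)`;
* otherwise `(x, l) ↦ (x, l)`.
The conditions of drop and append exclude each other, drop followed by append and append followed by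
drop are the identity, so `σ j` is an involution. For a reduced word `l` with `l.length ≤ r` one has
`(evC ρ σ l * ρ x)⁻¹ (1, []) = (x, l)` by induction on `l`, which gives the injectivity. -/
def S_word : Prop :=
  ∀ (C : Type) [Group C] [Finite C] (M r : ℕ),
    ∃ (Q : Type) (_ : Group Q) (_ : Finite Q) (ρ : C →* Q) (σ : Fin M → Q),
      (∀ j, σ j * σ j = 1) ∧
      ∀ (l l' : List (C × Fin M)) (x x' : C), RedC l → RedC l' → l.length ≤ r → l'.length ≤ r →
        evC ρ σ l * ρ x = evC ρ σ l' * ρ x' → l = l' ∧ x = x'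

/-- the generators of the stages below `n` -/
def En {G : Type} [Group G] {d : ℕ} (ι : Multiplicative (Fin d → ℤ) →* G) (s : ℕ → ℕ → G)
    (M : ℕ → ℕ) (n : ℕ) : Set G :=
  {g | ∃ i : Fin d, g = ι (Multiplicative.ofAdd (Pi.single i 1)) ∨
    g = ι (Multiplicative.ofAdd (Pi.single i (-1)))} ∪ {g | ∃ i < n, ∃ j < M i, g = s i j}

/-- **A2 (the group).** For all `M n`, `r n` there is a countable group `G` with a retraction
`χ : G →* ℤ^d` (section `ι`), and involutions `s n j` in the kernel of `χ`, such that the family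
`s n j`, `j < M n`, is locally free up to the radius `r n` over the generators of the earlier stages,
and for every finite set `S` the elements of the generated subgroup in the kernel of `χ` are finite in
number.

Proof. Let `𝔽 = FreeGroup Gen`, `Gen = Fin d ⊕ (ℕ × ℕ)`, `e i = of (inl i)`, `y n j = of (inr (n, j))`,
`N 0` = the kernel of `𝔽 → ℤ^d` (`e i ↦ Pi.single i 1`, `y n j ↦ 0`), `𝔽 n` = the subgroup generated by
all `e i` and all `y i j`, `i < n`. One constructs a decreasing sequence of normal subgroups `N n` with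
(S1) `y i j ∈ N n` for all `i ≥ n` and all `j`;
(S2) residual finiteness of `𝔽 / N n`: for every finite `S` with `S ∩ N n = ∅` there is a normal subgroup
  `L ≥ N n` of finite index with `S ∩ L = ∅`;
(S3) `N n` has finite index in `N 0` (`(N n).relIndex (N 0) ≠ 0`);
(P1) `𝔽 n ∩ N n ≤ N (n+1) ≤ N n`; (P2) `y n j ^ 2 ∈ N (n+1)`;
(P3) local freeness of `y n j`, `j < M n`, modulo `N (n+1)`.
Step `n → n+1`: `B` = the ball of radius `r n` in `𝔽` over the (finite) set of generators
`e i^{±1}`, `y i j` (`i < n`, `j < M i`), `S = {u⁻¹ v : u, v ∈ B, u⁻¹ v ∉ N n}`, `L` from (S2),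
`C = 𝔽 ⧸ L` (finite), `Q, ρ, σ` from `S_word` for `C, M n, r n`, `Φ : 𝔽 →* Q` given by
`e i ↦ ρ [e i]`, `y i j ↦ ρ [y i j]` (`i < n`), `y n j ↦ σ j` (`j < M n`), all other generators `↦ 1`;
`N (n+1) = N n ⊓ Φ.ker`. On `𝔽 n` one has `Φ u = ρ [u]`, so (P1) holds; (S1), (P2) are clear; (S2) for
`n+1`: an element outside of `N (n+1)` is outside of `N n` or outside of `Φ.ker` (a normal subgroup of
finite index): intersect. (S3): `Φ.ker` has finite index. (P3): for a word with letters in `B`,
`Φ (value) = evC ρ σ (word of classes) * ρ [x]`, the classes in `C` separate the elements of `B` modulo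
`N n` (choice of `L`), so a reduced word stays reduced.
`G = 𝔽 ⧸ ⨅ n, N n`; `𝔽 n ∩ N k = 𝔽 n ∩ N n` for `k ≥ n` by (P1), so the properties pass to `G`:
e.g. commutators of `e i, e j` are in `𝔽 0 ∩ N 0`, which gives `ι`; (P3) for elements of `𝔽 n`;
the finiteness: a finite subset of `G` lifts to `𝔽 n` for some `n`, and `𝔽 n ∩ N 0` modulo
`𝔽 n ∩ N n` embeds in `N 0 / N n`, which is finite. (Take `s n j = [y n j]` if `j < M n` and `1` otherwise,
or put the `y n j`, `j ≥ M n`, in `N 0 ... ` as above where they are mapped to `1`.) -/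
def S_alg : Prop :=
  ∀ (d : ℕ) (M r : ℕ → ℕ),
    ∃ (G : Type) (_ : Group G) (_ : Countable G) (ι : Multiplicative (Fin d → ℤ) →* G)
      (χ : G →* Multiplicative (Fin d → ℤ)) (s : ℕ → ℕ → G),
      (∀ x, χ (ι x) = x) ∧ (∀ n j, χ (s n j) = 1) ∧ (∀ n j, s n j * s n j = 1) ∧
      (∀ S : Finset G, {x : G | x ∈ Subgroup.closure (S : Set G) ∧ χ x = 1}.Finite) ∧
      ∀ n, LFc (En ι s M n) (fun j : Fin (M n) => s n j) (r n)

end Pool.Agent.H987.Z
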