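import Pool.Agent.H987.Z.Defs
import Pool.Graph.R_seed8.TH369.MU.Defs

/-! Statements, part B (analysis and probability, independent of the model). -/

set_option autoImplicit false

open scoped BigOperators InnerProductSpace Topology
open Filter MeasureTheory

namespace Pool.Agent.H987.Z

open Pool.Agent.Y662.TR (LL Cf Mw dv hu)
open Pool.Agent.TH369.AN (Rz)

/-- **B1 (a triangle inequality).** `hu a b = |a - b|² / (Im a Im b) = 4 sinh² (dist a b / 2)` (see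
`cosh_hu` in the library file `Y662/TR/Hp.lean`).

Proof. With `X = √(hu a b)`, `Y = √(hu b c)`, `Z = √(hu a c)`: `Z ≤ X + Y + X Y`, because
`Z = 2 sinh (d(a,c)/2) ≤ 2 sinh ((p+q)/2) = 2 sinh (p/2) cosh (q/2) + 2 cosh (p/2) sinh (q/2)` and
`cosh (q/2) = √(1 + Y²/4) ≤ 1 + Y/2`. Hence `Z ≤ Y + X (1 + Y)` and
`Z⁴ ≤ (1 + ε) Y⁴ + K' (X (1 + Y))⁴ ≤ (1 + ε) Y⁴ + 8 K' X⁴ (1 + Y⁴)`. -/
def S_hutri : Prop :=
  ∀ ε : ℝ, 0 < ε → ε ≤ 1 → ∃ K : ℝ, 0 < K ∧ ∀ a b c : ℂ, 0 < a.im → 0 < b.im → 0 < c.im →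
    hu a c ^ 2 ≤ (1 + ε) * hu b c ^ 2 + K * hu a b ^ 2 * (1 + hu b c ^ 2)

/-- **B2 (law of large numbers).** Proof. `m = ∫ X`. By `hu_sq` (library):
`|X - g|² ≤ hu (hu + 2) (Im g)²`, `∫ hu ≤ 1/10` (Cauchy-Schwarz), so
`∫ |X - g|² ≤ (1/100 + 2/10) (Im g)²` and `|m - g|² ≤ 0.21 (Im g)²`, `Im m ≥ Im g / 2`. Let `N = |F|`,
`S = (1/M) ∑_{i ∈ F} X (w i)`, `U = (1/N) ∑_{i ∈ F} hu (X (w i)) g`, `μ = ∫ hu (X) g ≤ 1/10`.
Pointwise: `hu(S, m)² ≤ K ((U - μ)² + |S - m|² / (Im m)²)`, `K = K(ρ)`: first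
`hu(S, g) ≤ K₂ (1 + U)` (as `w ↦ |w - g|²/Im w` is convex (Cauchy-Schwarz), `S = (N/M) avg`,
`|S - g| ≤ (N/M) |avg - g| + |g|/M`, `Im g / Im avg ≤ hu(avg, g) + 2` by `hu_im`), and
`hu(S, m) ≤ (2 + hu(g, m)) (hu(S, g) + 2)` by `tri_far`; so if `U > 2` the first term dominates; if `U ≤ 2`
and `Im S < Im m / 2`, then `hu(S,m)` is bounded and `|S - m| ≥ Im m / 2`; if `U ≤ 2` and
`Im S ≥ Im m / 2`, then `hu(S,m)² ≤ K hu(S, m) ≤ 2 K |S - m|²/(Im m)²`. Expectation: independence gives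
`∫ (U - μ)² ≤ (1/100) / N`, `∫ |(1/M) ∑_{i ∈ F} (X (w i) - m)|² ≤ 0.21 (Im g)² / M`, and
`|S - m| ≤ |(1/M) ∑_{i∈F} (X (w i) - m)| + |m| / M`. The library file `Y662/TR/Prob.lean` has
`wsum_fin` (second moments of weighted sums), `int_eval`, `bdd_int`. -/
def S_lln : Prop :=
  ∀ ρ : ℝ, 1 ≤ ρ → ∃ C : ℝ, 0 < C ∧
    ∀ (Ω I : Type) [MeasurableSpace Ω] (P : Measure Ω) [IsProbabilityMeasure P] (X : Ω → ℂ) (K κ : ℝ)
      (g : ℂ), Measurable X → (∀ ω, ‖X ω‖ ≤ K) → 0 < κ → (∀ ω, κ ≤ (X ω).im) → 0 < g.im →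
      ‖g‖ ≤ ρ * g.im → ∫ ω, hu (X ω) g ^ 2 ∂P ≤ 1 / 100 →
      ‖(∫ ω, X ω ∂P) - g‖ ≤ g.im / 2 ∧
      ∀ (M : ℕ) (F : Finset I), 2 ≤ M → F.card ≤ M → M ≤ F.card + 1 →
        ∫ w : I → Ω, hu ((∑ i ∈ F, X (w i)) / (M : ℂ)) (∫ ω, X ω ∂P) ^ 2
          ∂(Measure.infinitePi fun _ : I => P) ≤ C / M

/-- **B3 (the weighted Cauchy-Schwarz inequality).** Proof. See the library file
`Y662/TR/Sheet.lean` (`energy`, `bil`, `im_phi`, `im_psi`, `cs_w`, `bound1`) for the case of the lattice.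
`Im φ(o) = ∑_x (Im z + t² Im s(x)) |φ(x)|²`, `Im ψ(o) = (Im z + t² Im m) ∑_x |ψ(x)|²` (take the imaginary
part of `⟨φ, T φ⟩`, real because `T` is self-adjoint), and
`φ(o) - ψ(o) = t² ∑_x ψ(x) (s(x) - m) φ(x)` (from the symmetry `bil`), so by Cauchy-Schwarz
`|φ(o) - ψ(o)|² ≤ (∑ t² Im s(x) |φ(x)|²) (∑ t² |ψ(x)|² |s(x) - m|² / Im s(x))
 ≤ Im φ(o) · ∑ t² |ψ(x)|² |s(x) - m|²/Im s(x)`. Divide by `Im φ(o) Im ψ(o)`. -/
def S_star : Prop :=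
  ∀ (ι : Type) (T : LL ι →L[ℂ] LL ι), Rs T → ∀ (z m : ℂ) (t C c : ℝ) (s : ι → ℂ) (o : ι)
    (φ ψ : LL ι), 0 < z.im → 0 < m.im → 0 < t → 0 < c → (∀ x, ‖s x‖ ≤ C) → (∀ x, c ≤ (s x).im) →
    (∀ x, T φ x - (z + (t : ℂ) ^ 2 * s x) * φ x = dv o x) →
    (∀ x, T ψ x - (z + (t : ℂ) ^ 2 * m) * ψ x = dv o x) →
    0 < (φ o).im ∧ 0 < (ψ o).im ∧
      (Summable fun x => t ^ 2 * m.im * ‖ψ x‖ ^ 2 / (ψ o).im) ∧
      ∑' x, t ^ 2 * m.im * ‖ψ x‖ ^ 2 / (ψ o).im ≤ 1 ∧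
      hu (φ o) (ψ o) ≤ ∑' x, (t ^ 2 * m.im * ‖ψ x‖ ^ 2 / (ψ o).im) * hu (s x) m

/-- **B4 (resolvents and moments).** If the moments `⟨δ, T^k δ⟩` of two bounded self-adjoint operators
agree up to the order `t`, the resolvents are close, uniformly.

Proof. `D = -i (z - T)`... precisely `D = -i z + i T` (so `z - T = i D`), `Re ⟨u, D u⟩ = Im z ‖u‖²`,
`‖D‖ ≤ R + h =: c`. For `s = c²/θ`: `‖(1 - D/s) u‖² ≤ (1 - 2θ/s + c²/s²) ‖u‖² = (1 - θ²/c²) ‖u‖²`, so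
`q = ‖1 - D/s‖ < 1` and `D⁻¹ = (1/s) ∑_k (1 - D/s)^k`; `Rz T z = (T - z)⁻¹ = -(z - T)⁻¹ = i D⁻¹`... (sign:
`T - z = -i D`, `(T - z)⁻¹ = i D⁻¹`). The terms with `k ≤ t` of `⟨δ, (1 - D/s)^k δ⟩` are polynomials in the
moments of order `≤ t`, hence equal, and the tails are at most `q^(t+1)/(s (1 - q))` each. Here
`Rz T z δ = Ring.inverse (T - z) δ`; use `rz_uniq`, `rz_eq` of `Pool.Agent.TH369.AN`. -/
def S_mom : Prop :=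
  ∀ θ R h δ : ℝ, 0 < θ → 0 < R → 0 < h → 0 < δ → ∃ t : ℕ,
    ∀ (ι κ : Type) (T : LL ι →L[ℂ] LL ι) (S : LL κ →L[ℂ] LL κ) (x : ι) (y : κ),
      IsSelfAdjoint T → IsSelfAdjoint S → ‖T‖ ≤ h → ‖S‖ ≤ h →
      (∀ k ≤ t, (T ^ k) (dv x) x = (S ^ k) (dv y) y) →
      ∀ z : ℂ, θ ≤ z.im → ‖z‖ ≤ R → ‖Gr T z x x - Gr S z y y‖ ≤ δ

/-- **B5 (absolutely continuous spectrum from moments).** Adaptation of the library file
`Y662/FP/Acg.lean` (`det_ac`, `det_pos`, `main_G`), which uses `all_vec`, `fatou_om`, `qk_po` of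
`Y662/TR/Acs.lean` (general index types). `T` is a fixed real symmetric bounded operator, the potential is
`V ω`, `V : Ω → ι → ℝ` measurable; `g` a continuous function on the upper half-plane with
`c ≤ Im g`, `|g| ≤ C` on `[α,β] × (0,1]`. (Joint measurability in `(E, ω)`: continuity in `E` for every
`ω` and measurability in `ω` for every `E`: `V ↦ Gr (HV T V) z x x` is continuous for the product
topology, cf. `Mw_tendsto` in `Y662/TR/L2.lean` and `Rz_tendsto` in `Y662/TR/Res.lean`.) -/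
def S_ac : Prop :=
  ∀ (ι Ω : Type) [Countable ι] [MeasurableSpace Ω] (P : Measure Ω) [IsProbabilityMeasure P]
    (T : LL ι →L[ℂ] LL ι) (V : Ω → ι → ℝ) (g : ℂ → ℂ) (α β c C e : ℝ), IsSelfAdjoint T →
    Measurable V → ContinuousOn g {z | 0 < z.im} → 0 < c →
    (∀ z : ℂ, α < z.re → z.re < β → 0 < z.im → z.im ≤ 1 → c ≤ (g z).im ∧ ‖g z‖ ≤ C) →
    (∀ z : ℂ, α < z.re → z.re < β → 0 < z.im → z.im ≤ 1 → ∀ x : ι,
      ∫ ω, hu (Gr (HV T (V ω)) z x x) (g z) ^ 2 ∂P ≤ e) →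
    ∀ᵐ ω ∂P,
      (∀ (φ : LL ι) (m : Measure ℝ), Pool.Agent.TH369.MU.SpM (HV T (V ω)) φ m →
        ∀ A : Set ℝ, A ⊆ Set.Ioo α β → volume A = 0 → m A = 0) ∧
      (∀ (x : ι) (m : Measure ℝ), Pool.Agent.TH369.MU.SpM (HV T (V ω)) (dv x) m →
        ∀ A : Set ℝ, A ⊆ Set.Ioo α β → MeasurableSet A → m A = 0 → volume A = 0)

end Pool.Agent.H987.Z
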