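import Pool.Agent.H987.Z.Defs

/-! Statements, part C (the model). -/

set_option autoImplicit false

open scoped BigOperators InnerProductSpace Topology
open Filter MeasureTheory

namespace Pool.Agent.H987.Z

open Pool.Agent.Y662.TR (LL Cf Mw dv hu)
open Pool.Agent.TH369.AN (Rz)

/-- **C0 (basic facts on convolution operators).** `KA ρ b = ∑' s, b s • Cf (ρ s)`; the series converges
absolutely in norm since `‖Cf‖ ≤ 1` (`Cf_norm`); the adjoint of `Cf (ρ s)` is `Cf (ρ s⁻¹)` (compare
coordinates with `Cf_adj`); the symmetry of the bilinear form: complex conjugation commutes with `T`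
because the kernel is real, cf. `bil_symm` in `Y662/TR/Res.lean`. -/
def S_conv : Prop :=
  ∀ (G ι : Type) [Group G] (ρ : G → Equiv.Perm ι), RA ρ → ∀ b b' : G → ℝ, Sy b → Sy b' →
    (∀ (u : LL ι) (x : ι), (Summable fun s => ((b s : ℝ) : ℂ) * u (ρ s x)) ∧
      KA ρ b u x = ∑' s, ((b s : ℝ) : ℂ) * u (ρ s x)) ∧
    ‖KA ρ b‖ ≤ N1 b ∧ Rs (KA ρ b) ∧ ‖KA ρ b - KA ρ b'‖ ≤ N1 (fun s => b s - b' s)

/-- **C1 (basic facts on Green functions).** (1) symmetry, cf. `GG_symm`; (2), (3) the imaginary part,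
cf. `GG_im`, `GG_im_lower`; (4) `GG_le`; (5), (6) resolvent identities (`rz_sub`, and
`Rz T z - Rz T z' = (z - z') Rz T z Rz T z'`); (7) continuity in the potential (`Mw_tendsto`,
`Rz_tendsto`; use the filter `𝓝 V0` on `ι → ℝ`). -/
def S_green : Prop :=
  ∀ (ι : Type) (T : LL ι →L[ℂ] LL ι), Rs T →
    (∀ V : ι → ℝ, Rs (HV T V) ∧ ‖HV T V‖ ≤ ‖T‖ + 1) ∧
    (∀ (z : ℂ) (x y : ι), z.im ≠ 0 → Gr T z x y = Gr T z y x) ∧
    (∀ (z : ℂ) (x : ι), z.im ≠ 0 → (Gr T z x x).im = z.im * ‖Rz T z (dv x)‖ ^ 2) ∧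
    (∀ (z : ℂ) (x : ι) (h : ℝ), 0 < z.im → ‖T‖ ≤ h → z.im / (h + ‖z‖) ^ 2 ≤ (Gr T z x x).im) ∧
    (∀ (z : ℂ) (x y : ι), 0 < z.im → ‖Gr T z x y‖ ≤ 1 / z.im) ∧
    (∀ (T' : LL ι →L[ℂ] LL ι) (z : ℂ) (x y : ι), Rs T' → 0 < z.im →
      ‖Gr T z x y - Gr T' z x y‖ ≤ ‖T - T'‖ / z.im ^ 2) ∧
    (∀ (z z' : ℂ) (x y : ι), 0 < z.im → 0 < z'.im →
      ‖Gr T z x y - Gr T z' x y‖ ≤ ‖z - z'‖ / (z.im * z'.im)) ∧
    (∀ (z : ℂ) (x y : ι), z.im ≠ 0 → Continuous fun V : ι → ℝ => Gr (HV T V) z x y)

/-- **C2 (the kinetic energy of the tree).** -/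
def S_tree : Prop :=
  ∀ (G : Type) [Group G] (n : ℕ) (b : G → ℝ), Sy b → ∀ (a : ℝ) (τ : Vt G n → Fin (n + 1) → ℝ),
    Rs (TB b a τ) ∧ ‖TB b a τ‖ ≤ N1 b + 2 * |a| * (n + 1)

/-- **C3 (the equation of the root sheet).** Adaptation of `sub_apply`, `rz_sub_apply`, `rz_child`,
`root_eq` of the library files `Y662/TR/Mod.lean`, `Y662/TR/Res.lean` (there: lattice sheets and one
branch per site). -/
def S_root : Prop :=
  ∀ (G : Type) [Group G] (n : ℕ) (b : G → ℝ), Sy b → ∀ (a : ℝ) (τ : Vt G n → Fin (n + 1) → ℝ),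
    (∀ v j, |τ v j| ≤ 1) → ∀ (V : Vt G n → ℝ) (z : ℂ), z.im ≠ 0 →
    ∃ φ : LL G, (∀ x, φ x = Gr (HV (TB b a τ) V) z ([], x) oo) ∧
      ∀ x, HV (KT b) (fun y => V ([], y)) φ x -
        (z + (a : ℂ) ^ 2 * ∑ j : Fin (n + 1), ((τ ([], x) j : ℝ) : ℂ) ^ 2 *
          GB b a (fun v => τ (jp [(x, j)] v)) (fun v => V (jp [(x, j)] v)) z) * φ x = dv 1 x

/-- the weights of the next stage: `b + a ∑_j δ_{s j}` -/
noncomputable def bp {G : Type} {n : ℕ} (b : G → ℝ) (a : ℝ) (s : Fin (n + 1) → G) : G → ℝ := by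
  classical
  exact fun g => b g + a * ((Finset.univ.filter fun j => s j = g).card : ℝ)

/-- **C4 (the tree is a local cover of the next stage).** Let `s j` be involutions, locally free up to
the radius `t` over the support `E` of `b`. There is an injection `σ : G → Vt G n` such that for every
potential `V` on the tree the moments up to the order `t` of `HV (TB b a tf) V` at the root agree with
those of `HV (KT (bp b a s)) (V ∘ σ)` at `1`.

Proof. The colour of the label `j` at the vertex `(l, x)`: `cl l x j = if x = 1 then swap 0 (col l) j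
else j`, `col [] = 0`, `col ((u, j) :: l) = cl l u j` (so at the base point of a sheet the missing label
`0` corresponds to the colour of the bond to the parent). The map `pc : Vt G n → G`,
`pc (l, x) = pl l * x`, `pl [] = 1`, `pl ((u, j) :: l) = pl l * u * s (cl l u j)`. A vertex `(l, x)` is good
of order `k` if `l.length ≤ k`, all entries `u` of `l` and `x` are in `Bl E k`, and `l` is reduced (`u = 1`
implies `j ≠ 0` for all letters `(u, j)` of `l` except the first letter of the word, i.e. the last element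
of the list). The neighbours (sheet neighbours `(l, x s)`, `s ∈ E`; children `ch j (l, x)` with
`tf (l, x) j = 1`; the parent `(l', u)` of `((u, j) :: l', 1)`) of a good vertex of order `k` are good of
order `k + 1`. `pc` maps the neighbours of a good `v` bijectively (with the weights) to the neighbours of
`pc v`: sheet neighbours to `pc v * s`; the colours at `v`: if `x ≠ 1` or `l = []` all colours belong to
children; if `x = 1`, `l ≠ []` the colours `≠ col l` belong to children and
`pc (parent) = pc v * s (col l)` as `s (col l)` is an involution. Let `P : finitely supported functions on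
the tree → functions on G` be the push forward by `pc` (`Finsupp.mapDomain`). Then
`P (H δ_v) = H' (δ_{pc v})` for good `v` of order `< t` if `V v = V' (pc v)`, so
`H'^k δ_1 = P (H^k δ_oo)` for `k ≤ t`, `H^k δ_oo` being supported in the good vertices of order `k`. `pc` is
injective on the good vertices of order `t` (translate labels to colours, `RedC` is preserved, use
`LFc E s t`). Let `σ (pc v) = v` for good `v` of order `t` and `σ g = (List.replicate (t + 1) (1, 0), g)` for
the other `g`; it is injective, and `V' = V ∘ σ` has `V' (pc v) = V v`. At the end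
`(H'^k δ_1)(1) = ∑_{v good, pc v = 1} (H^k δ_oo)(v) = (H^k δ_oo)(oo)`. (`b` need not be finitely
supported if one works in `ℓ¹`-type spaces; you may assume `E` finite, as here.) -/
def S_cover : Prop :=
  ∀ (G : Type) [Group G] (n t : ℕ) (b : G → ℝ) (a : ℝ) (s : Fin (n + 1) → G) (E : Set G), Sy b →
    E.Finite → (∀ g, b g ≠ 0 → g ∈ E ∨ g = 1) → (∀ j, s j * s j = 1) → LFc E s t →
    ∃ σ : G → Vt G n, Function.Injective σ ∧ ∀ V : Vt G n → ℝ, ∀ k ≤ t,
      ((HV (KT (bp b a s)) fun g => V (σ g)) ^ k) (dv 1) 1 = ((HV (TB b a tf) V) ^ k) (dv oo) oo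

/-- the glued environment: `v` on the root sheet, `w i` on the branch `i` -/
noncomputable def gl {G : Type} {n : ℕ} (v : G → ℝ) (w : Ix G n → Vt G n → ℝ) (p : Vt G n) : ℝ := by
  classical
  exact if h : p.1 = [] then v p.2 else w (p.1.getLast h) (p.1.dropLast, p.2)

/-- **C5 (splitting the product measure).** Adaptation of `Y662/TR/Split.lean`. -/
def S_split : Prop :=
  ∀ (G : Type) [Countable G] (n : ℕ) (ν : Measure ℝ) [IsProbabilityMeasure ν],
    (∀ (v : G → ℝ) (w : Ix G n → Vt G n → ℝ) (x : G), gl v w ([], x) = v x) ∧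
    (∀ (v : G → ℝ) (w : Ix G n → Vt G n → ℝ) (i : Ix G n) (p : Vt G n),
      gl v w (p.1 ++ [i], p.2) = w i p) ∧
    (Measurable fun q : (G → ℝ) × (Ix G n → Vt G n → ℝ) => gl q.1 q.2) ∧
    ((Measure.infinitePi fun _ : G => ν).prod
      (Measure.infinitePi fun _ : Ix G n => Measure.infinitePi fun _ : Vt G n => ν)).map
      (fun q => gl q.1 q.2) = Measure.infinitePi fun _ : Vt G n => ν

end Pool.Agent.H987.Z
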