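import Pool.Agent.H987.Z.StA
import Pool.Agent.H987.Z.StB
import Pool.Agent.H987.Z.StC
import Pool.Graph.R_pool_sql_team_seeded_1acbe0a2.Y662.TR.Prob
import Pool.Graph.R_pool_sql_team_seeded_1acbe0a2.Y662.TR.Sheet

/-! One step of the recursion at a fixed energy. -/

set_option autoImplicit false
set_option linter.unusedSectionVars false

open scoped BigOperators InnerProductSpace Topology
open Filter MeasureTheory

namespace Pool.Agent.H987.Z

open Pool.Agent.Y662.TR (LL Cf Mw dv hu hu_nonneg cs_tsum bdd_int bdd_int_real)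
open Pool.Agent.TH369.AN (Rz rz_eq)

/-! ### measurability and bounds -/

theorem hu_meas {Ω : Type} [MeasurableSpace Ω] {f : Ω → ℂ} (hf : Measurable f) (g : ℂ) :
    Measurable fun ω => hu (f ω) g := by
  unfold hu
  exact ((hf.sub_const g).norm.pow_const 2).div
    ((Complex.measurable_im.comp hf).mul_const g.im)

theorem hu_bd {a g : ℂ} {K κ : ℝ} (hκ : 0 < κ) (hK : ‖a‖ ≤ K) (ha : κ ≤ a.im) (hg : 0 < g.im) :
    0 ≤ hu a g ∧ hu a g ≤ (K + ‖g‖) ^ 2 / (κ * g.im) := by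
  have ha0 : 0 < a.im := hκ.trans_le ha
  refine ⟨hu_nonneg ha0 hg, ?_⟩
  unfold hu
  have h1 : ‖a - g‖ ≤ K + ‖g‖ := (norm_sub_le _ _).trans (by linarith)
  gcongr

/-- the data of a bounded random variable in the upper half-plane -/
structure Bd {Ω : Type} [MeasurableSpace Ω] (X : Ω → ℂ) (K κ : ℝ) : Prop where
  me : Measurable X
  K : ∀ ω, ‖X ω‖ ≤ K
  κ0 : 0 < κ
  κ : ∀ ω, κ ≤ (X ω).im

theorem Bd.hu0 {Ω : Type} [MeasurableSpace Ω] {X : Ω → ℂ} {K κ : ℝ} (h : Bd X K κ) {g : ℂ}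
    (hg : 0 < g.im) (ω : Ω) : 0 ≤ hu (X ω) g := (hu_bd h.κ0 (h.K ω) (h.κ ω) hg).1

theorem Bd.hu1 {Ω : Type} [MeasurableSpace Ω] {X : Ω → ℂ} {K κ : ℝ} (h : Bd X K κ) {g : ℂ}
    (hg : 0 < g.im) (ω : Ω) : hu (X ω) g ≤ (K + ‖g‖) ^ 2 / (κ * g.im) :=
  (hu_bd h.κ0 (h.K ω) (h.κ ω) hg).2

theorem Bd.int2 {Ω : Type} [MeasurableSpace Ω] {X : Ω → ℂ} {K κ : ℝ} (h : Bd X K κ) {g : ℂ}
    (hg : 0 < g.im) (P : Measure Ω) [IsFiniteMeasure P] :
    Integrable (fun ω => hu (X ω) g ^ 2) P := by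
  refine bdd_int_real P _ ((hu_meas h.me g).pow_const 2) (((K + ‖g‖) ^ 2 / (κ * g.im)) ^ 2)
    fun ω => ?_
  rw [abs_of_nonneg (sq_nonneg _)]
  have h1 := h.hu0 hg ω
  have h2 := h.hu1 hg ω
  gcongr

theorem Bd.comp {Ω Ω' : Type} [MeasurableSpace Ω] [MeasurableSpace Ω'] {X : Ω → ℂ} {K κ : ℝ}
    (h : Bd X K κ) {f : Ω' → Ω} (hf : Measurable f) : Bd (fun ω => X (f ω)) K κ :=
  ⟨h.me.comp hf, fun _ => h.K _, h.κ0, fun _ => h.κ _⟩

theorem Bd.pos {Ω : Type} [MeasurableSpace Ω] {X : Ω → ℂ} {K κ : ℝ} (h : Bd X K κ) (ω : Ω) :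
    0 < (X ω).im := h.κ0.trans_le (h.κ ω)

section green

variable {ι : Type}

theorem bd_gr (hg : S_green) [Countable ι] (T : LL ι →L[ℂ] LL ι) (hT : Rs T) (h : ℝ) (hh : ‖T‖ ≤ h)
    (z : ℂ) (hz : 0 < z.im) (x : ι) :
    Bd (fun V : ι → ℝ => Gr (HV T V) z x x) (1 / z.im) (z.im / (h + 1 + ‖z‖) ^ 2) := by
  obtain ⟨g0, g1, g2, g3, g4, g5, g6, g7⟩ := hg ι T hT
  have hz1 : 0 < ‖z‖ := hz.trans_le (Complex.im_le_norm z)
  have hh0 : 0 ≤ h := (norm_nonneg _).trans hh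
  refine ⟨(g7 z x x hz.ne').measurable, fun V => ?_, by positivity, fun V => ?_⟩
  · exact (hg ι (HV T V) (g0 V).1).2.2.2.2.1 z x x hz
  · exact (hg ι (HV T V) (g0 V).1).2.2.2.1 z x (h + 1) hz ((g0 V).2.trans (by linarith))

end green

section tree

variable {G : Type} [Group G] {n : ℕ}

theorem tf_jp (i : Ix G n) (v : Vt G n) (j : Fin (n + 1)) : tf (jp [i] v) j = tr v j := by
  have h : v.1 ++ [i] ≠ [] := by simp
  unfold tf tr jp
  by_cases h2 : v.2 = 1 ∧ j = 0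
  · rw [if_pos ⟨h, h2⟩, if_pos h2]
  · rw [if_neg (fun h3 => h2 h3.2), if_neg h2]

theorem tr_jp (i : Ix G n) (v : Vt G n) (j : Fin (n + 1)) : tr (jp [i] v) j = tr v j := by
  unfold tr jp
  rfl

theorem t_cases (τ : Vt G n → Fin (n + 1) → ℝ) (hτ : τ = tr ∨ τ = tf) :
    (∀ v j, τ v j = 0 ∨ τ v j = 1) ∧ (∀ i : Ix G n, (fun v => τ (jp [i] v)) = tr) ∧
      (∀ v j, j ≠ 0 → τ v j = 1) := by
  rcases hτ with h | h
  · subst h
    refine ⟨fun v j => ?_, fun i => ?_, fun v j hj => ?_⟩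
    · unfold tr
      split_ifs <;> simp
    · funext v j
      exact tr_jp i v j
    · unfold tr
      rw [if_neg]
      tauto
  · subst h
    refine ⟨fun v j => ?_, fun i => ?_, fun v j hj => ?_⟩
    · unfold tf
      split_ifs <;> simp
    · funext v j
      exact tf_jp i v j
    · unfold tf
      rw [if_neg]
      tauto

open Classical in
/-- the branches of the root sheet at `x` -/
noncomputable def Fx (τ : Vt G n → Fin (n + 1) → ℝ) (x : G) : Finset (Ix G n) :=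
  (Finset.univ.filter fun j => τ ([], x) j = 1).image fun j => (x, j)

theorem Fx_sum (τ : Vt G n → Fin (n + 1) → ℝ) (hτ : ∀ v j, τ v j = 0 ∨ τ v j = 1) (x : G)
    (f : Ix G n → ℂ) :
    ∑ i ∈ Fx τ x, f i = ∑ j : Fin (n + 1), ((τ ([], x) j : ℝ) : ℂ) ^ 2 * f (x, j) := by
  classical
  unfold Fx
  rw [Finset.sum_image (fun a _ b _ h => by simpa using h), Finset.sum_filter]
  refine Finset.sum_congr rfl fun j _ => ?_
  rcases hτ ([], x) j with h | h
  · rw [h]; simp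
  · rw [h]; simp

theorem Fx_card (τ : Vt G n → Fin (n + 1) → ℝ) (hτ : ∀ v j, j ≠ 0 → τ v j = 1) (x : G) :
    (Fx τ x).card ≤ n + 1 ∧ n + 1 ≤ (Fx τ x).card + 1 := by
  classical
  unfold Fx
  rw [Finset.card_image_of_injective _ (fun a b h => by simpa using h)]
  constructor
  · refine (Finset.card_le_univ _).trans ?_
    simp
  · have h1 : (Finset.univ.erase (0 : Fin (n + 1))) ⊆
        Finset.univ.filter fun j => τ ([], x) j = 1 := by
      intro j hj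
      rw [Finset.mem_filter]
      exact ⟨Finset.mem_univ _, hτ _ _ (Finset.ne_of_mem_erase hj)⟩
    have h2 := Finset.card_le_card h1
    rw [Finset.card_erase_of_mem (Finset.mem_univ _), Finset.card_univ, Fintype.card_fin] at h2
    omega

end tree

/-- Jensen -/
theorem jensen {ι : Type} (w u : ι → ℝ) (hw : ∀ x, 0 ≤ w x) (hu0 : ∀ x, 0 ≤ u x) (U : ℝ)
    (hU : ∀ x, u x ≤ U) (hs : Summable w) (h1 : ∑' x, w x ≤ 1) :
    Summable (fun x => w x * u x ^ 2) ∧ (∑' x, w x * u x) ^ 2 ≤ ∑' x, w x * u x ^ 2 := by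
  have hU2 : ∀ x, w x * u x ^ 2 ≤ w x * U ^ 2 := fun x =>
    mul_le_mul_of_nonneg_left (pow_le_pow_left₀ (hu0 x) (hU x) 2) (hw x)
  have s1 : Summable fun x => w x * u x ^ 2 :=
    Summable.of_nonneg_of_le (fun x => mul_nonneg (hw x) (sq_nonneg _)) hU2 (hs.mul_right _)
  refine ⟨s1, ?_⟩
  have e1 : ∀ x, Real.sqrt (w x) ^ 2 = w x := fun x => Real.sq_sqrt (hw x)
  have e2 : ∀ x, (Real.sqrt (w x) * u x) ^ 2 = w x * u x ^ 2 := fun x => by
    rw [mul_pow, e1]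
  have e3 : ∀ x, Real.sqrt (w x) * (Real.sqrt (w x) * u x) = w x * u x := fun x => by
    rw [← mul_assoc, ← sq, e1]
  obtain ⟨k1, k2⟩ := cs_tsum (f := fun x => Real.sqrt (w x)) (g := fun x => Real.sqrt (w x) * u x)
    (by simp only [e1]; exact hs) (by simp only [e2]; exact s1)
  simp only [e1, e2, e3] at k2
  refine k2.trans ?_
  have h3 : 0 ≤ ∑' x, w x * u x ^ 2 := tsum_nonneg fun x => mul_nonneg (hw x) (sq_nonneg _)
  nlinarith

section one

variable {G : Type} [Group G] [Countable G] {n : ℕ}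

/-- the inequality for one environment of the root sheet -/
theorem inner_step (h3 : S_star) (hc : S_conv) (hg : S_green) (ht : S_tree) (hr : S_root)
    (hs : S_split) {b : G → ℝ} (hb : Sy b) {a : ℝ} (ha : 0 < a) {z m : ℂ} (hz : 0 < z.im)
    (hm : 0 < m.im) (hn : 1 ≤ n) (τ : Vt G n → Fin (n + 1) → ℝ) (hτ : τ = tr ∨ τ = tf)
    (ν : Measure ℝ) [IsProbabilityMeasure ν] (D : ℝ) (hD0 : 0 ≤ D)
    (hD : ∀ F : Finset (Ix G n), F.card ≤ n + 1 → n + 1 ≤ F.card + 1 →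
      ∫ w : Ix G n → Vt G n → ℝ, hu ((∑ i ∈ F, GB b a tr (w i) z) / ((n + 1 : ℕ) : ℂ)) m ^ 2
        ∂(Measure.infinitePi fun _ : Ix G n => Measure.infinitePi fun _ : Vt G n => ν) ≤ D)
    (v : G → ℝ) :
    0 < (GS b v (z + ((a ^ 2 * (n + 1) : ℝ) : ℂ) * m)).im ∧
    ∫ w : Ix G n → Vt G n → ℝ, hu (GB b a τ (gl v w) z)
        (GS b v (z + ((a ^ 2 * (n + 1) : ℝ) : ℂ) * m)) ^ 2
        ∂(Measure.infinitePi fun _ : Ix G n => Measure.infinitePi fun _ : Vt G n => ν) ≤ D := by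
  classical
  obtain ⟨Q, hQ⟩ : ∃ Q, Q = Measure.infinitePi fun _ : Ix G n =>
    Measure.infinitePi fun _ : Vt G n => ν := ⟨_, rfl⟩
  have hQp : IsProbabilityMeasure Q := by rw [hQ]; infer_instance
  rw [← hQ] at hD ⊢
  obtain ⟨t1, t2, t3⟩ := t_cases τ hτ
  obtain ⟨z', hz'⟩ : ∃ z', z' = z + ((a ^ 2 * (n + 1) : ℝ) : ℂ) * m := ⟨_, rfl⟩
  rw [← hz']
  have hz'0 : 0 < z'.im := by
    rw [hz', Complex.add_im, Complex.im_ofReal_mul]
    positivity
  obtain ⟨t, htd⟩ : ∃ t : ℝ, t = a * Real.sqrt (n + 1) := ⟨_, rfl⟩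
  have ht0 : 0 < t := by rw [htd]; positivity
  have ht2 : t ^ 2 = a ^ 2 * (n + 1) := by
    rw [htd, mul_pow, Real.sq_sqrt (by positivity)]
  have ht2c : (t : ℂ) ^ 2 = ((a ^ 2 * (n + 1) : ℝ) : ℂ) := by
    rw [← Complex.ofReal_pow, ht2]
  -- the operator of the sheet
  have hRA : RA (fun s : G => Equiv.mulRight s) := ⟨fun x => by simp, fun s t x => by
    simp [mul_assoc]⟩
  have hKT : Rs (KT b) := (hc G G _ hRA b b hb hb).2.2.1
  obtain ⟨g0, -⟩ := hg G (KT b) hKT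
  have hT : Rs (HV (KT b) v) := (g0 v).1
  have hTB : ∀ τ' : Vt G n → Fin (n + 1) → ℝ, Rs (TB b a τ') ∧
      ‖TB b a τ'‖ ≤ N1 b + 2 * |a| * (n + 1) := ht G n b hb a
  -- the branch variable
  have hX : Bd (fun V : Vt G n → ℝ => GB b a tr V z) (1 / z.im)
      (z.im / (N1 b + 2 * |a| * (n + 1) + 1 + ‖z‖) ^ 2) :=
    bd_gr hg (TB b a tr) (hTB tr).1 _ (hTB tr).2 z hz oo
  obtain ⟨K, hKd⟩ : ∃ K, K = 1 / z.im := ⟨_, rfl⟩
  obtain ⟨κ, hκd⟩ : ∃ κ, κ = z.im / (N1 b + 2 * |a| * (n + 1) + 1 + ‖z‖) ^ 2 := ⟨_, rfl⟩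
  rw [← hKd, ← hκd] at hX
  have hK0 : 0 ≤ K := by rw [hKd]; positivity
  -- the averages
  obtain ⟨S, hS⟩ : ∃ S : (Ix G n → Vt G n → ℝ) → G → ℂ,
      S = fun w x => (∑ i ∈ Fx τ x, GB b a tr (w i) z) / ((n + 1 : ℕ) : ℂ) := ⟨_, rfl⟩
  have hn1 : (0 : ℝ) < (n : ℝ) + 1 := by positivity
  have hcard : ∀ x, (Fx τ x).card ≤ n + 1 ∧ n + 1 ≤ (Fx τ x).card + 1 := fun x => Fx_card τ t3 x
  have hSB : ∀ x, Bd (fun w => S w x) K (κ / 2) := by
    intro x
    rw [hS]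
    have hc1 : ((Fx τ x).card : ℝ) ≤ n + 1 := by exact_mod_cast (hcard x).1
    have hc2 : ((n : ℝ) + 1) / 2 ≤ ((Fx τ x).card : ℝ) := by
      have : ((n : ℝ) + 1) ≤ ((Fx τ x).card : ℝ) + 1 := by exact_mod_cast (hcard x).2
      have hn' : (1 : ℝ) ≤ n := by exact_mod_cast hn
      linarith
    refine ⟨?_, fun w => ?_, by have := hX.κ0; positivity, fun w => ?_⟩
    · refine Measurable.div_const ?_ _
      exact Finset.measurable_sum _ fun i _ => hX.me.comp (measurable_pi_apply i)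
    · simp only
      rw [norm_div, Complex.norm_natCast, div_le_iff₀ (by positivity)]
      refine (norm_sum_le _ _).trans ?_
      refine (Finset.sum_le_sum fun i _ => hX.K (w i)).trans ?_
      rw [Finset.sum_const, nsmul_eq_mul, mul_comm]
      push_cast
      gcongr
    · simp only
      have h4 : ((∑ i ∈ Fx τ x, GB b a tr (w i) z) / ((n + 1 : ℕ) : ℂ)).im =
          (∑ i ∈ Fx τ x, (GB b a tr (w i) z).im) / ((n : ℝ) + 1) := by
        rw [← Complex.im_sum]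
        have : (((n + 1 : ℕ) : ℂ)) = (((n : ℝ) + 1 : ℝ) : ℂ) := by push_cast; ring
        rw [this, Complex.div_ofReal_im]
      rw [h4, le_div_iff₀ hn1]
      have h5 : ((Fx τ x).card : ℝ) * κ ≤ ∑ i ∈ Fx τ x, (GB b a tr (w i) z).im := by
        rw [← nsmul_eq_mul, ← Finset.sum_const]
        exact Finset.sum_le_sum fun i _ => hX.κ (w i)
      have := hX.κ0
      nlinarith
  -- the comparison function
  obtain ⟨ψ, hψd⟩ : ∃ ψ : LL G, ψ = Rz (HV (KT b) v) z' (dv 1) := ⟨_, rfl⟩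
  have hψe : ∀ x, HV (KT b) v ψ x - (z + (t : ℂ) ^ 2 * m) * ψ x = dv 1 x := by
    intro x
    have h5 := rz_eq (HV (KT b) v) hT.sa z' hz'0.ne' (dv 1)
    rw [← hψd] at h5
    have h6 := congrArg (fun u : LL G => u x) h5
    simp only [Pool.Agent.Y662.TR.sub_coord, Pool.Agent.Y662.TR.smul_coord] at h6
    rw [ht2c, ← hz']
    exact h6
  have hψ1 : ψ 1 = GS b v z' := by
    rw [hψd]
    rfl
  -- the inequality for every `w`
  have hmain : ∀ w, 0 < (ψ 1).im ∧ (Summable fun x => t ^ 2 * m.im * ‖ψ x‖ ^ 2 / (ψ 1).im) ∧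
      ∑' x, t ^ 2 * m.im * ‖ψ x‖ ^ 2 / (ψ 1).im ≤ 1 ∧
      hu (GB b a τ (gl v w) z) (ψ 1) ≤
        ∑' x, (t ^ 2 * m.im * ‖ψ x‖ ^ 2 / (ψ 1).im) * hu (S w x) m := by
    intro w
    obtain ⟨φ, hφ1, hφ2⟩ := hr G n b hb a τ (fun p j => by
      rcases t1 p j with h | h <;> rw [h] <;> simp) (gl v w) z hz.ne'
    obtain ⟨s1, s2, -, -⟩ := hs G n ν
    have e1 : (fun y => gl v w ([], y)) = v := by
      funext y
      exact s1 v w y
    have e2 : ∀ x, ∀ j : Fin (n + 1), (fun p => gl v w (jp [(x, j)] p)) = w (x, j) := by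
      intro x j
      funext p
      exact s2 v w (x, j) p
    have hφe : ∀ x, HV (KT b) v φ x - (z + (t : ℂ) ^ 2 * S w x) * φ x = dv 1 x := by
      intro x
      have h5 := hφ2 x
      rw [e1] at h5
      rw [← h5]
      congr 3
      rw [hS]
      simp only
      rw [Fx_sum τ t1 x (fun i => GB b a tr (w i) z), ht2c]
      have h6 : ∀ j, GB b a (fun p => τ (jp [(x, j)] p)) (fun p => gl v w (jp [(x, j)] p)) z =
          GB b a tr (w (x, j)) z := by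
        intro j
        rw [t2, e2]
      simp only [h6]
      push_cast
      have : ((n : ℂ) + 1) ≠ 0 := by exact_mod_cast hn1.ne'
      field_simp
    obtain ⟨k1, k2, k3, k4, k5⟩ := h3 G (HV (KT b) v) hT z m t K (κ / 2) (S w) 1 φ ψ hz hm ht0
      (hSB 1).κ0 (fun x => (hSB x).K w) (fun x => (hSB x).κ w) hφe hψe
    refine ⟨k2, k3, k4, ?_⟩
    have h7 : GB b a τ (gl v w) z = φ 1 := (hφ1 1).symm
    rw [h7]
    exact k5
  obtain ⟨hp1, hp2, hp3, -⟩ := hmain fun _ _ => 0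
  rw [hψ1] at hp1
  refine ⟨hp1, ?_⟩
  obtain ⟨q, hq⟩ : ∃ q : G → ℝ, q = fun x => t ^ 2 * m.im * ‖ψ x‖ ^ 2 / (ψ 1).im := ⟨_, rfl⟩
  have hq0 : ∀ x, 0 ≤ q x := by
    intro x
    rw [hq, hψ1]
    positivity
  have hqs : Summable q := by rw [hq]; exact hp2
  have hq1 : ∑' x, q x ≤ 1 := by rw [hq]; exact hp3
  obtain ⟨U, hU⟩ : ∃ U, U = (K + ‖m‖) ^ 2 / (κ / 2 * m.im) := ⟨_, rfl⟩
  have hu0 : ∀ w x, 0 ≤ hu (S w x) m := fun w x => (hSB x).hu0 hm w
  have huU : ∀ w x, hu (S w x) m ≤ U := fun w x => by rw [hU]; exact (hSB x).hu1 hm w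
  have hU0 : 0 ≤ U := (hu0 (fun _ _ => 0) 1).trans (huU _ _)
  -- integrability
  have hY : Bd (fun w : Ix G n → Vt G n → ℝ => GB b a τ (gl v w) z) (1 / z.im)
      (z.im / (N1 b + 2 * |a| * (n + 1) + 1 + ‖z‖) ^ 2) := by
    have h8 := bd_gr hg (TB b a τ) (hTB τ).1 _ (hTB τ).2 z hz (oo : Vt G n)
    obtain ⟨-, -, s3, -⟩ := hs G n ν
    exact h8.comp (s3.comp measurable_prodMk_left)
  have i1 : Integrable (fun w : Ix G n → Vt G n → ℝ => hu (GB b a τ (gl v w) z) (GS b v z') ^ 2)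
      Q := hY.int2 hp1 Q
  have hterm : ∀ x, ∫ w, q x * hu (S w x) m ^ 2 ∂Q ≤ q x * D := by
    intro x
    rw [integral_const_mul]
    refine mul_le_mul_of_nonneg_left ?_ (hq0 x)
    have h9 := hD (Fx τ x) (hcard x).1 (hcard x).2
    rw [hS]
    exact h9
  have hmeas : ∀ x, Measurable fun w => q x * hu (S w x) m ^ 2 := fun x =>
    ((hu_meas (hSB x).me m).pow_const 2).const_mul _
  have hint : ∀ x, Integrable (fun w => q x * hu (S w x) m ^ 2) Q := fun x =>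
    ((hSB x).int2 hm Q).const_mul _
  have hle : ∀ w x, q x * hu (S w x) m ^ 2 ≤ q x * U ^ 2 := fun w x =>
    mul_le_mul_of_nonneg_left (pow_le_pow_left₀ (hu0 w x) (huU w x) 2) (hq0 x)
  have hnn : ∀ w x, 0 ≤ q x * hu (S w x) m ^ 2 := fun w x => mul_nonneg (hq0 x) (sq_nonneg _)
  have hsn : Summable fun x => ∫ w, ‖q x * hu (S w x) m ^ 2‖ ∂Q := by
    refine Summable.of_nonneg_of_le (fun x => integral_nonneg fun w => norm_nonneg _) (fun x => ?_)
      (hqs.mul_right (U ^ 2))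
    calc ∫ w, ‖q x * hu (S w x) m ^ 2‖ ∂Q ≤ ∫ _, q x * U ^ 2 ∂Q := by
          refine integral_mono (hint x).norm (integrable_const _) fun w => ?_
          simp only
          rw [Real.norm_of_nonneg (hnn w x)]
          exact hle w x
      _ = q x * U ^ 2 := by simp
  have i2 : Integrable (fun w => ∑' x, q x * hu (S w x) m ^ 2) Q := by
    have hm2 : Measurable fun w => ∑' x, q x * hu (S w x) m ^ 2 := by
      refine measurable_of_tendsto_metrizable' (u := (atTop : Filter (Finset G)))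
        (f := fun F w => ∑ x ∈ F, q x * hu (S w x) m ^ 2) (fun F => ?_) ?_
      · exact Finset.measurable_sum _ fun x _ => hmeas x
      · rw [tendsto_pi_nhds]
        intro w
        exact (jensen q (fun x => hu (S w x) m) hq0 (hu0 w) U (huU w) hqs hq1).1.hasSum
    refine bdd_int_real Q _ hm2 (∑' x, q x * U ^ 2) fun w => ?_
    rw [abs_of_nonneg (tsum_nonneg (hnn w))]
    exact (jensen q (fun x => hu (S w x) m) hq0 (hu0 w) U (huU w) hqs hq1).1.tsum_le_tsum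
      (hle w) (hqs.mul_right _)
  calc ∫ w, hu (GB b a τ (gl v w) z) (GS b v z') ^ 2 ∂Q ≤
        ∫ w, ∑' x, q x * hu (S w x) m ^ 2 ∂Q := by
        refine integral_mono i1 i2 fun w => ?_
        simp only
        have h10 := (hmain w).2.2.2
        rw [hψ1] at h10
        have h11 : 0 ≤ hu (GB b a τ (gl v w) z) (GS b v z') := hY.hu0 hp1 w
        have h12 := (jensen q (fun x => hu (S w x) m) hq0 (hu0 w) U (huU w) hqs hq1).2
        refine le_trans (pow_le_pow_left₀ h11 h10 2) ?_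
        rw [hq, hψ1] at h12
        rw [hq, hψ1]
        exact h12
    _ = ∑' x, ∫ w, q x * hu (S w x) m ^ 2 ∂Q :=
        (integral_tsum_of_summable_integral_norm hint hsn).symm
    _ ≤ ∑' x, q x * D := by
        refine Summable.tsum_le_tsum hterm ?_ (hqs.mul_right _)
        refine hsn.congr fun x => ?_
        refine integral_congr_ae (Eventually.of_forall fun w => ?_)
        simp only
        rw [Real.norm_of_nonneg (hnn w x)]
    _ = (∑' x, q x) * D := tsum_mul_right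
    _ ≤ 1 * D := by gcongr
    _ = D := one_mul D

end one

section two

/-- **one step of the recursion at a fixed energy** -/
theorem one_step (h1 : S_hutri) (h2 : S_lln) (h3 : S_star) (hc : S_conv) (hg : S_green)
    (ht : S_tree) (hr : S_root) (hs : S_split) (ρ ε : ℝ) (hρ : 1 ≤ ρ) (hε : 0 < ε) (hε1 : ε ≤ 1) :
    ∃ M0 : ℕ, ∀ (G : Type) [Group G] [Countable G] (n : ℕ), M0 ≤ n + 1 →
      ∀ b : G → ℝ, Sy b → ∀ a : ℝ, 0 < a → ∀ (ν : Measure ℝ) [IsProbabilityMeasure ν] (z g : ℂ),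
      0 < z.im → 0 < g.im → ‖g‖ ≤ ρ * g.im →
      ∫ V, hu (GB b a tr V z) g ^ 2 ∂(Measure.infinitePi fun _ : Vt G n => ν) ≤ 1 / 100 →
      ∀ m : ℂ, m = ∫ V, GB b a tr V z ∂(Measure.infinitePi fun _ : Vt G n => ν) →
      ‖m - g‖ ≤ g.im / 2 ∧
      ∀ e1 : ℝ, e1 ≤ 1 →
        ∫ V, hu (GS b V (z + ((a ^ 2 * (n + 1) : ℝ) : ℂ) * m)) g ^ 2
          ∂(Measure.infinitePi fun _ : G => ν) ≤ e1 →
        ∀ τ : Vt G n → Fin (n + 1) → ℝ, (τ = tr ∨ τ = tf) →
          ∫ V, hu (GB b a τ V z) g ^ 2 ∂(Measure.infinitePi fun _ : Vt G n => ν) ≤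
            (1 + ε) * e1 + ε := by
  obtain ⟨C, hC0, hC⟩ := h2 ρ hρ
  obtain ⟨K, hK0, hK⟩ := h1 ε hε hε1
  obtain ⟨M1, hM1⟩ := exists_nat_ge (2 * K * C / ε)
  refine ⟨max M1 2, fun G _ _ n hn b hb a ha ν _ z g hz hgi hgρ hx m hm => ?_⟩
  have hn2 : 2 ≤ n + 1 := (le_max_right _ _).trans hn
  have hn1 : 1 ≤ n := by omega
  have hTB : ∀ τ' : Vt G n → Fin (n + 1) → ℝ, Rs (TB b a τ') ∧
      ‖TB b a τ'‖ ≤ N1 b + 2 * |a| * (n + 1) := ht G n b hb a
  have hX : Bd (fun V : Vt G n → ℝ => GB b a tr V z) (1 / z.im)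
      (z.im / (N1 b + 2 * |a| * (n + 1) + 1 + ‖z‖) ^ 2) :=
    bd_gr hg (TB b a tr) (hTB tr).1 _ (hTB tr).2 z hz oo
  obtain ⟨c1, c2⟩ := hC (Vt G n → ℝ) (Ix G n) (Measure.infinitePi fun _ : Vt G n => ν)
    (fun V => GB b a tr V z) _ _ g hX.me hX.K hX.κ0 hX.κ hgi hgρ hx
  rw [← hm] at c1 c2
  refine ⟨c1, fun e1 he1 hint τ hτ => ?_⟩
  have hm0 : 0 < m.im := by
    have h5 := Complex.abs_im_le_norm (m - g)
    rw [Complex.sub_im] at h5
    have h6 := (abs_le.1 (h5.trans c1)).1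
    linarith
  obtain ⟨D, hD⟩ : ∃ D, D = C / ((n + 1 : ℕ) : ℝ) := ⟨_, rfl⟩
  have hD0 : 0 ≤ D := by rw [hD]; positivity
  have hKD : 2 * K * D ≤ ε := by
    have h5 : (M1 : ℝ) ≤ ((n + 1 : ℕ) : ℝ) := by exact_mod_cast (le_max_left _ _).trans hn
    have h6 : 2 * K * C / ε ≤ ((n + 1 : ℕ) : ℝ) := hM1.trans h5
    have h7 : (0 : ℝ) < ((n + 1 : ℕ) : ℝ) := by positivity
    rw [div_le_iff₀ hε] at h6
    rw [hD, mul_div_assoc', div_le_iff₀ h7]
    linarith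
  obtain ⟨z', hz'⟩ : ∃ z', z' = z + ((a ^ 2 * (n + 1) : ℝ) : ℂ) * m := ⟨_, rfl⟩
  have hz'0 : 0 < z'.im := by
    rw [hz', Complex.add_im, Complex.im_ofReal_mul]
    positivity
  have hin : ∀ v : G → ℝ, 0 < (GS b v z').im ∧
      ∫ w : Ix G n → Vt G n → ℝ, hu (GB b a τ (gl v w) z) (GS b v z') ^ 2
        ∂(Measure.infinitePi fun _ : Ix G n => Measure.infinitePi fun _ : Vt G n => ν) ≤ D := by
    intro v
    rw [hz']
    refine inner_step h3 hc hg ht hr hs hb ha hz hm0 hn1 τ hτ ν D hD0 (fun F hF1 hF2 => ?_) v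
    rw [hD]
    exact c2 (n + 1) F hn2 hF1 hF2
  rw [← hz'] at hint
  -- the group
  have hRA : RA (fun s : G => Equiv.mulRight s) := ⟨fun x => by simp, fun s t x => by
    simp [mul_assoc]⟩
  obtain ⟨-, hKTn, hKT, -⟩ := hc G G _ hRA b b hb hb
  have hY : Bd (fun V : G → ℝ => GS b V z') (1 / z'.im) (z'.im / (N1 b + 1 + ‖z'‖) ^ 2) :=
    bd_gr hg (KT b) hKT _ hKTn z' hz'0 1
  have hF : Bd (fun V : Vt G n → ℝ => GB b a τ V z) (1 / z.im)
      (z.im / (N1 b + 2 * |a| * (n + 1) + 1 + ‖z‖) ^ 2) :=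
    bd_gr hg (TB b a τ) (hTB τ).1 _ (hTB τ).2 z hz oo
  obtain ⟨-, -, s3, s4⟩ := hs G n ν
  obtain ⟨Q, hQ⟩ : ∃ Q, Q = Measure.infinitePi fun _ : Ix G n =>
    Measure.infinitePi fun _ : Vt G n => ν := ⟨_, rfl⟩
  have hQp : IsProbabilityMeasure Q := by rw [hQ]; infer_instance
  rw [← hQ] at s4 hin
  obtain ⟨P, hP⟩ : ∃ P, P = Measure.infinitePi fun _ : G => ν := ⟨_, rfl⟩
  have hPp : IsProbabilityMeasure P := by rw [hP]; infer_instance
  rw [← hP] at s4 hint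
  have hFg : Bd (fun q : (G → ℝ) × (Ix G n → Vt G n → ℝ) => GB b a τ (gl q.1 q.2) z) (1 / z.im)
      (z.im / (N1 b + 2 * |a| * (n + 1) + 1 + ‖z‖) ^ 2) := hF.comp s3
  have iF : Integrable (fun q : (G → ℝ) × (Ix G n → Vt G n → ℝ) =>
      hu (GB b a τ (gl q.1 q.2) z) g ^ 2) (P.prod Q) := hFg.int2 hgi _
  rw [← s4, integral_map s3.aemeasurable
    ((hu_meas hF.me g).pow_const 2).aestronglyMeasurable, integral_prod _ iF]
  have hinner : ∀ v : G → ℝ, ∫ w, hu (GB b a τ (gl v w) z) g ^ 2 ∂Q ≤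
      (1 + ε + K * D) * hu (GS b v z') g ^ 2 + K * D := by
    intro v
    obtain ⟨p1, p2⟩ := hin v
    have hmk : Measurable fun w : Ix G n → Vt G n → ℝ =>
        ((v, w) : (G → ℝ) × (Ix G n → Vt G n → ℝ)) := measurable_prodMk_left
    have hFv : Bd (fun w : Ix G n → Vt G n → ℝ => GB b a τ (gl v w) z) (1 / z.im)
        (z.im / (N1 b + 2 * |a| * (n + 1) + 1 + ‖z‖) ^ 2) := by
      have h0 := Bd.comp hFg hmk
      exact h0
    have j1 := hFv.int2 hgi Q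
    have j2 := hFv.int2 p1 Q
    have hpt : ∀ w, hu (GB b a τ (gl v w) z) g ^ 2 ≤ (1 + ε) * hu (GS b v z') g ^ 2 +
        (K * (1 + hu (GS b v z') g ^ 2)) * hu (GB b a τ (gl v w) z) (GS b v z') ^ 2 := by
      intro w
      have := hK (GB b a τ (gl v w) z) (GS b v z') g (hFv.pos w) p1 hgi
      linarith
    have j4 : Integrable (fun w => (K * (1 + hu (GS b v z') g ^ 2)) *
        hu (GB b a τ (gl v w) z) (GS b v z') ^ 2) Q := j2.const_mul (K * (1 + hu (GS b v z') g ^ 2))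
    have j5 : Integrable (fun _ : Ix G n → Vt G n → ℝ => (1 + ε) * hu (GS b v z') g ^ 2) Q :=
      integrable_const _
    have j3 : Integrable (fun w => (1 + ε) * hu (GS b v z') g ^ 2 +
        (K * (1 + hu (GS b v z') g ^ 2)) * hu (GB b a τ (gl v w) z) (GS b v z') ^ 2) Q :=
      j5.add j4
    refine (integral_mono j1 j3 hpt).trans ?_
    have h7 : ∫ w, ((1 + ε) * hu (GS b v z') g ^ 2 +
        (K * (1 + hu (GS b v z') g ^ 2)) * hu (GB b a τ (gl v w) z) (GS b v z') ^ 2) ∂Q =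
        (1 + ε) * hu (GS b v z') g ^ 2 + (K * (1 + hu (GS b v z') g ^ 2)) *
        ∫ w, hu (GB b a τ (gl v w) z) (GS b v z') ^ 2 ∂Q := by
      rw [integral_add j5 j4, integral_const_mul (K * (1 + hu (GS b v z') g ^ 2)), integral_const]
      simp
    refine h7.le.trans ?_
    have h8 : (K * (1 + hu (GS b v z') g ^ 2)) *
        ∫ w, hu (GB b a τ (gl v w) z) (GS b v z') ^ 2 ∂Q ≤ (K * (1 + hu (GS b v z') g ^ 2)) * D :=
      mul_le_mul_of_nonneg_left p2 (by positivity)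
    linarith
  have k1 : Integrable (fun v : G → ℝ => ∫ w, hu (GB b a τ (gl v w) z) g ^ 2 ∂Q) P :=
    iF.integral_prod_left
  have k3 : Integrable (fun v : G → ℝ => (1 + ε + K * D) * hu (GS b v z') g ^ 2) P :=
    (hY.int2 hgi P).const_mul (1 + ε + K * D)
  have k4 : Integrable (fun _ : G → ℝ => K * D) P := integrable_const _
  have k2 : Integrable (fun v : G → ℝ => (1 + ε + K * D) * hu (GS b v z') g ^ 2 + K * D) P :=
    k3.add k4
  refine (integral_mono k1 k2 hinner).trans ?_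
  have k5 : ∫ v : G → ℝ, ((1 + ε + K * D) * hu (GS b v z') g ^ 2 + K * D) ∂P =
      (1 + ε + K * D) * (∫ v, hu (GS b v z') g ^ 2 ∂P) + K * D := by
    rw [integral_add k3 k4, integral_const_mul, integral_const]
    simp
  refine k5.le.trans ?_
  have hKD0 : 0 ≤ K * D := by positivity
  have h9 : (1 + ε + K * D) * ∫ V, hu (GS b V z') g ^ 2 ∂P ≤ (1 + ε + K * D) * e1 :=
    mul_le_mul_of_nonneg_left hint (by positivity)
  nlinarith

end two

end Pool.Agent.H987.Z
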