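import Pool.Graph.R_pool_sql_team_seeded_1acbe0a2.Y662.TR.L2
import Pool.Graph.R_pool_sql_team_seeded_1acbe0a2.Y662.TR.Hp
import Pool.Graph.R_seed8.TH369.AN.RES

/-! Definitions: convolution operators, trees of sheets, the group data. -/

set_option autoImplicit false
set_option linter.unusedSectionVars false

open scoped BigOperators InnerProductSpace Topology
open Filter MeasureTheory

namespace Pool.Agent.H987.Z

open Pool.Agent.Y662.TR (LL Cf Mw dv hu)
open Pool.Agent.TH369.AN (Rz)

/-! ### Convolution operators for right actions -/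

section act

variable {G ι : Type} [Group G]

/-- `ρ` is a right action of `G` on `ι` by permutations -/
structure RA (ρ : G → Equiv.Perm ι) : Prop where
  one : ∀ x, ρ 1 x = x
  mul : ∀ s t x, ρ (s * t) x = ρ t (ρ s x)

/-- symmetric absolutely summable weights -/
structure Sy (b : G → ℝ) : Prop where
  sm : Summable fun s => |b s|
  sy : ∀ s, b s⁻¹ = b s

/-- the norm of the weights -/
noncomputable def N1 (b : G → ℝ) : ℝ := ∑' s, |b s|

/-- the operator `(K u)(x) = ∑_s b(s) u(x s)` -/
noncomputable def KA (ρ : G → Equiv.Perm ι) (b : G → ℝ) : LL ι →L[ℂ] LL ι :=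
  ∑' s : G, ((b s : ℝ) : ℂ) • Cf (ρ s) (ρ s).injective

end act

section green

variable {ι : Type}

/-- bounded operators with a real symmetric kernel -/
structure Rs (T : LL ι →L[ℂ] LL ι) : Prop where
  sa : IsSelfAdjoint T
  bil : ∀ u v : LL ι, ∑' x, T u x * v x = ∑' x, u x * T v x

/-- the Green function of `T` -/
noncomputable def Gr (T : LL ι →L[ℂ] LL ι) (z : ℂ) (x y : ι) : ℂ := Rz T z (dv y) x

/-- `T` plus the potential `V` (clipped to `[-1,1]`) -/
noncomputable def HV (T : LL ι →L[ℂ] LL ι) (V : ι → ℝ) : LL ι →L[ℂ] LL ι := T + Mw 1 V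

end green

/-! ### The group -/

section group

variable {G : Type} [Group G]

/-- the convolution operator `(K u)(x) = ∑_s b(s) u(x s)` on the group -/
noncomputable def KT (b : G → ℝ) : LL G →L[ℂ] LL G := KA (fun s => Equiv.mulRight s) b

/-- the Green function at the identity -/
noncomputable def GS (b V : G → ℝ) (z : ℂ) : ℂ := Gr (HV (KT b) V) z 1 1

end group

/-! ### The tree of sheets: `n + 1` branches at every site -/

section tree

/-- the labels of the branches of a sheet -/
abbrev Ix (G : Type) (n : ℕ) : Type := G × Fin (n + 1)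

/-- the vertices: `(l, x)`, `l` the list of the branches (the most recent one first), `x` the position
in the sheet -/
abbrev Vt (G : Type) (n : ℕ) : Type := List (Ix G n) × G

variable {G : Type} [Group G] {n : ℕ}

/-- translations in the sheets -/
def shp (s : G) : Equiv.Perm (Vt G n) := (Equiv.refl _).prodCongr (Equiv.mulRight s)

/-- the base point of the sheet attached to `v` with the label `j` -/
def ch (j : Fin (n + 1)) (v : Vt G n) : Vt G n := ((v.2, j) :: v.1, 1)

theorem ch_inj (j : Fin (n + 1)) : Function.Injective (ch (G := G) j) := by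
  rintro ⟨l, x⟩ ⟨l', x'⟩ h
  unfold ch at h
  simp only [Prod.mk.injEq, List.cons.injEq, and_true] at h
  exact Prod.ext h.2 h.1

/-- the inclusion of the subtree of the sheet `p` -/
def jp (p : List (Ix G n)) (v : Vt G n) : Vt G n := (v.1 ++ p, v.2)

theorem jp_inj (p : List (Ix G n)) : Function.Injective (jp (G := G) p) := by
  rintro ⟨l, x⟩ ⟨l', x'⟩ h
  unfold jp at h
  simp only [Prod.mk.injEq, List.append_cancel_right_eq] at h
  exact Prod.ext h.1 h.2

/-- the root -/
def oo : Vt G n := ([], 1)

open Classical in
/-- the bonds of the rooted tree: at the base point of every sheet the label `0` is missing -/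
noncomputable def tr (v : Vt G n) (j : Fin (n + 1)) : ℝ := if v.2 = 1 ∧ j = 0 then 0 else 1

open Classical in
/-- the bonds of the full tree: at the base point of every sheet, except the root sheet, the label
`0` is missing -/
noncomputable def tf (v : Vt G n) (j : Fin (n + 1)) : ℝ :=
  if v.1 ≠ [] ∧ v.2 = 1 ∧ j = 0 then 0 else 1

/-- half of the hopping between the sheets along the label `j` -/
noncomputable def JB (τ : Vt G n → Fin (n + 1) → ℝ) (j : Fin (n + 1)) :
    LL (Vt G n) →L[ℂ] LL (Vt G n) := Mw 1 (fun v => τ v j) * Cf (ch j) (ch_inj j)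

/-- the kinetic energy of the tree of sheets -/
noncomputable def TB (b : G → ℝ) (a : ℝ) (τ : Vt G n → Fin (n + 1) → ℝ) :
    LL (Vt G n) →L[ℂ] LL (Vt G n) :=
  KA shp b + (a : ℂ) • ∑ j : Fin (n + 1), (JB τ j + ContinuousLinearMap.adjoint (JB τ j))

/-- the Green function of the tree of sheets at the root -/
noncomputable def GB (b : G → ℝ) (a : ℝ) (τ : Vt G n → Fin (n + 1) → ℝ) (V : Vt G n → ℝ) (z : ℂ) :
    ℂ := Gr (HV (TB b a τ) V) z oo oo

end tree

/-! ### Local freeness -/

section free

variable {G : Type} [Group G]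

/-- the products of at most `k` elements of `E` -/
def Bl (E : Set G) : ℕ → Set G
  | 0 => {1}
  | (k + 1) => Bl E k ∪ {g | ∃ x ∈ Bl E k, ∃ s ∈ E, g = x * s}

/-- reduced words: `(u, j)` is the element `u` followed by the involution `s j`; the head of the list
is the last letter of the word -/
def RedC {M : ℕ} : List (G × Fin M) → Prop
  | [] => True
  | [_] => True
  | (u, j) :: (u', j') :: l => (u = 1 → j ≠ j') ∧ RedC ((u', j') :: l)

/-- the value of a word -/
def pC {M : ℕ} (s : Fin M → G) : List (G × Fin M) → G
  | [] => 1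
  | (u, j) :: l => pC s l * u * s j

/-- local freeness up to the radius `r` of the family `s` over the set `E` -/
def LFc (E : Set G) {M : ℕ} (s : Fin M → G) (r : ℕ) : Prop :=
  ∀ (l l' : List (G × Fin M)) (x x' : G), RedC l → RedC l' → l.length ≤ r → l'.length ≤ r →
    (∀ p ∈ l, p.1 ∈ Bl E r) → (∀ p ∈ l', p.1 ∈ Bl E r) → x ∈ Bl E r → x' ∈ Bl E r →
    pC s l * x = pC s l' * x' → l = l' ∧ x = x'

end free

end Pool.Agent.H987.Z
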