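import Pool.Agent.H987.Z.StD
import Pool.Graph.R_seed8.TH369.MU.Defs

/-! Statements, part F (the limit, symmetries, localization, translation to layers). -/

set_option autoImplicit false

open scoped BigOperators InnerProductSpace Topology
open Filter MeasureTheory

namespace Pool.Agent.H987.Z

open Pool.Agent.Y662.TR (LL Cf Mw dv hu)
open Pool.Agent.TH369.AN (Rz)

section weights

variable {d : ℕ} {G : Type} [Group G]

/-- the weights of the first `n` stages; stage `k` has the `N k + 1` involutions `s k j` with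
amplitude `a k` -/
noncomputable def bn (ι : Multiplicative (Fin d → ℤ) →* G) (s : ℕ → ℕ → G) (N : ℕ → ℕ) (a : ℕ → ℝ) :
    ℕ → G → ℝ
  | 0 => b0 ι
  | (n + 1) => bp (bn ι s N a n) (a n) (fun j : Fin (N n + 1) => s n j)

/-- the weights of the vertical hopping -/
noncomputable def cv (s : ℕ → ℕ → G) (N : ℕ → ℕ) (a : ℕ → ℝ) (x : G) : ℝ := by
  classical
  exact ∑' n : ℕ, a n * ((Finset.univ.filter fun j : Fin (N n + 1) => s n j = x).card : ℝ)

/-- all weights -/
noncomputable def bi (ι : Multiplicative (Fin d → ℤ) →* G) (s : ℕ → ℕ → G) (N : ℕ → ℕ) (a : ℕ → ℝ)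
    (x : G) : ℝ := b0 ι x + cv s N a x

end weights

/-- **F1 (the weights).** Elementary. For the last two items: `p ≤ 1` may be assumed first
(`(∑ x_i)^p ≤ ∑ x_i^p`; for `p > 1` compare with `p = 1`, the values being bounded by `∑ a n (N n + 1)`);
`∑_x cv(x)^p ≤ ∑_n (N n + 1) (a n)^p`. -/
def S_wt : Prop :=
  ∀ (d : ℕ) (G : Type) [Group G] (ι : Multiplicative (Fin d → ℤ) →* G) (s : ℕ → ℕ → G) (N : ℕ → ℕ)
    (a : ℕ → ℝ), Function.Injective ι → (∀ n j, s n j * s n j = 1) → (∀ n, 0 ≤ a n) →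
    (Summable fun n => a n * (N n + 1)) →
    (∀ n, Sy (bn ι s N a n)) ∧ Sy (bi ι s N a) ∧ Sy (cv s N a) ∧ (∀ x, 0 ≤ cv s N a x) ∧
    (∀ n, N1 (fun x => bn ι s N a n x - b0 ι x) ≤ ∑' k, a k * (N k + 1)) ∧
    (∀ n, N1 (fun x => bi ι s N a x - bn ι s N a n x) ≤ ∑' k, a (n + k) * (N (n + k) + 1)) ∧
    (∀ n x, bn ι s N a n x ≠ 0 → x ∈ En ι s (fun k => N k + 1) n ∨ x = 1) ∧
    (∀ n, (En ι s (fun k => N k + 1) n).Finite) ∧
    ∑' x, cv s N a x ≤ ∑' k, a k * (N k + 1) ∧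
    ((∀ p : ℝ, 0 < p → Summable fun n => (a n) ^ p * (N n + 1)) →
      ∀ p : ℝ, 0 < p → Summable fun x => cv s N a x ^ p)

/-- **F2 (continuity in the weights).** `|GS b V z - GS b' V z| ≤ N1 (b - b')/(Im z)²` for all `V`
(`S_conv`, `S_green`), all Green functions have imaginary part bounded below and modulus bounded above at
`z` (`bd_gr` in `D1.lean`), so the integrals converge (dominated convergence). -/
def S_lim : Prop :=
  ∀ (G : Type) [Group G] [Countable G] (b : ℕ → G → ℝ) (b' : G → ℝ), (∀ n, Sy (b n)) → Sy b' →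
    Tendsto (fun n => N1 fun x => b' x - b n x) atTop (𝓝 0) →
    ∀ (ν : Measure ℝ) [IsProbabilityMeasure ν] (z g : ℂ) (e : ℝ), 0 < z.im → 0 < g.im →
      (∀ᶠ n in atTop, ∫ V, hu (GS (b n) V z) g ^ 2 ∂(Measure.infinitePi fun _ : G => ν) ≤ e) →
      ∫ V, hu (GS b' V z) g ^ 2 ∂(Measure.infinitePi fun _ : G => ν) ≤ e

/-- **F3 (translation to layers and invariance).** `G` is the semidirect product of the kernel `F` of
`χ` and `ι(ℤ^d)`. With the bijection `(x, f) ↦ f * ι x` from `ℤ^d × F` to `G` the convolution operator on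
`ℓ²(G)` becomes the operator `K` below on `ℓ²(ℤ^d × F)`. Precisely: for every potential `V` on
`ℤ^d × F` and every site `p` the Green function at `(p, p)` of `K + V` equals `GS (bi ..) (V ∘ e) z` with a
bijection `e = e p : G → ℤ^d × F` (left translation by `f₀ ι(x₀)`, then the inverse of `(x, f) ↦ f ι x`), so
that the expectation over an iid potential is the same for all sites. `K` is real symmetric, and acts as
stated. -/
def S_lay : Prop :=
  ∀ (d : ℕ) (G : Type) [Group G] [Countable G] (ι : Multiplicative (Fin d → ℤ) →* G)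
    (χ : G →* Multiplicative (Fin d → ℤ)) (s : ℕ → ℕ → G) (N : ℕ → ℕ) (a : ℕ → ℝ),
    (∀ x, χ (ι x) = x) → (∀ n j, χ (s n j) = 1) → (∀ n j, s n j * s n j = 1) → (∀ n, 0 ≤ a n) →
    (Summable fun n => a n * (N n + 1)) →
    ∃ K : LL ((Fin d → ℤ) × χ.ker) →L[ℂ] LL ((Fin d → ℤ) × χ.ker), Rs K ∧
      (∀ (u : LL ((Fin d → ℤ) × χ.ker)) (x : Fin d → ℤ) (f : χ.ker),
        (Summable fun q : χ.ker => ((cv s N a (q : G) : ℝ) : ℂ) *
          u (x, f * MulAut.conjNormal (ι (Multiplicative.ofAdd x)) q)) ∧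
        K u (x, f) = -∑ i : Fin d, ((u (x + Pi.single i 1, f) - u (x, f)) +
            (u (x - Pi.single i 1, f) - u (x, f))) +
          ∑' q : χ.ker, ((cv s N a (q : G) : ℝ) : ℂ) *
            u (x, f * MulAut.conjNormal (ι (Multiplicative.ofAdd x)) q)) ∧
      ∀ (ν : Measure ℝ) [IsProbabilityMeasure ν] (z g : ℂ), 0 < z.im →
        ∀ p : (Fin d → ℤ) × χ.ker,
        ∫ V, hu (Gr (HV K V) z p p) g ^ 2
          ∂(Measure.infinitePi fun _ : (Fin d → ℤ) × χ.ker => ν) =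
        ∫ V, hu (GS (bi ι s N a) V z) g ^ 2 ∂(Measure.infinitePi fun _ : G => ν)

/-- **F4 (localization at strong disorder, Aizenman-Molchanov and Simon-Wolff).** `T` bounded, real
symmetric, with `∑_y |T(x,y)|^s ≤ S` for all `x`, the potential iid with a law on `[-1,1]` of density at
most `D`. For large coupling all spectral measures are pure point, almost surely.

Proof. (1) `G(x,y) = A/(λ ω_x - B)` as a function of `ω_x` (rank one, `x ≠ y` or `x = y`), hence
`𝔼|G(x,x;z)|^s ≤ C_s D^s/λ^s` and the decoupling inequality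
`𝔼 |λ ω_x - z|^s |G(x,y)|^s ≥ c_s λ^s 𝔼 |G(x,y)|^s` with `c_s = c(s, D) > 0` (for a law of density `≤ D` on
`[-1,1]`: `∫ |v - α|^s |v - β|^{-s} dμ(v) ≥ c ∫ |v - β|^{-s} dμ(v)` for all complex `α, β`). (2)
`(λ ω_x - z) G(x,y) = δ_{xy} - ∑_u T(x,u) G(u,y)`, so `f(x) = 𝔼 |G(x,y)|^s` satisfies
`c λ^s f(x) ≤ 1 + ...` for `x = y` and `c λ^s f(x) ≤ ∑_u |T(x,u)|^s f(u)` for `x ≠ y`; `f` is bounded for
fixed `Im z > 0`; for `S ≤ c λ^s/2` iterate: `∑_x f(x) ≤ 2 C λ^{-s}`, uniformly in `z`. (3) Hence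
`𝔼 (∑_x |G(x,y;E+iη)|²)^{s/2} ≤ C'` for all `E` and `η > 0`, so by Fatou's lemma for almost every
`(E, ω)`: `liminf_{η → 0} ∑_x |G(x,y;E+iη)|² < ∞`; (4) the Simon-Wolff criterion (rank one
perturbations at `y`: for almost every `ω_y` the spectral measure of `δ_y` is pure point), and countably
many `y`; the vectors with pure point spectral measure form a closed subspace. The library may have
(4): see the localization results of `R_pool_sql_team_seeded_*` and `R_seed8` for `MP_562b47_mp`,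
`MP_e921a3_mp`, `MP_28b024_mp`. -/
def S_loc : Prop :=
  ∀ (s S D : ℝ), 0 < s → s < 1 → 0 < S → 0 < D → ∃ l1 : ℝ, 0 < l1 ∧
    ∀ (ι : Type) [Countable ι] (T : LL ι →L[ℂ] LL ι), Rs T →
      (∀ x, (Summable fun y => ‖T (dv y) x‖ ^ s) ∧ ∑' y, ‖T (dv y) x‖ ^ s ≤ S) →
      ∀ (μ : Measure ℝ) [IsProbabilityMeasure μ], (∀ᵐ v ∂μ, |v| ≤ 1) →
      (∀ A : Set ℝ, MeasurableSet A → μ A ≤ ENNReal.ofReal D * volume A) →
      ∀ lam : ℝ, l1 ≤ lam → ∀ᵐ ω ∂(Measure.infinitePi fun _ : ι => μ),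
        ∀ (φ : LL ι) (m : Measure ℝ),
          Pool.Agent.TH369.MU.SpM (T + Mw lam fun x => lam * ω x) φ m →
          ∃ A : Set ℝ, A.Countable ∧ m Aᶜ = 0

end Pool.Agent.H987.Z
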